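import Pool.Agent.Work.MP_77d073_nt.Blk.Defs
import Pool.Agent.Work.MP_77d073_nt.Orbit

set_option autoImplicit false

/-!
# Blk/SzB (M): the sizes of the classes

sizes: `P = (B.map (Int.cast)).charpoly` over ℚ, over ℝ it is `∏ a, (X - C (β a))` (B is conjugate to `diagonal β` by `of y`:
`Matrix.charpoly` of a conjugate, or `(X - B)` conjugate). n ≥ 1, so P is not a unit; let q be a monic irreducible factor. `q(B)` (aeval) is a
rational matrix with `y q(B) = diag (q (β a)) y` (Orbit.poly_eigen). `q` divides `P`, so over ℝ it vanishes at some `β a` (a root over ℂ; all roots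
of P are the real β a), so `det q(B) = 0` and there is an integer vector `p ≠ 0` with `q(B) p = 0`; so `q(β a) * ∑ y a l p l = 0`, and
`hne` gives `q(β a) = 0` for all a. So q is the minimal polynomial of every `β a` over ℚ, every irreducible factor of P equals q
(monic), so `P = q ^ d` with `d * natDegree q = n`. Multiplicity of `β i` in P over ℝ: `#{a | β a = β i}` on one hand and
`d * (multiplicity in q) = d` (q separable) on the other.
-/

namespace Pool.Agent.Work.MP_77d073_nt.Blk

open Polynomial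
open Pool.Agent.Work.MP_77d073_nt Pool.Agent.Work.MP_77d073_nt.Root

private theorem szb_charpoly {n : ℕ} {y : Fin n → Fin n → ℝ} (hy : (Matrix.of y).det ≠ 0)
    {B : Matrix (Fin n) (Fin n) ℤ} {β : Fin n → ℝ}
    (hB : ∀ a b, ∑ l, y a l * (B l b : ℝ) = β a * y a b) :
    (B.map (Int.castRingHom ℝ)).charpoly = ∏ a, (X - C (β a)) := by
  have hu : IsUnit (Matrix.of y) := by
    rw [Matrix.isUnit_iff_isUnit_det]
    exact isUnit_iff_ne_zero.2 hy
  obtain ⟨u, hu⟩ := hu
  have h1 : (u : Matrix (Fin n) (Fin n) ℝ) * B.map (Int.castRingHom ℝ) =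
      Matrix.diagonal β * u := by
    ext a b
    rw [hu, Matrix.mul_apply, Matrix.diagonal_mul]
    simpa using hB a b
  have h2 : (u : Matrix (Fin n) (Fin n) ℝ) * B.map (Int.castRingHom ℝ) * ((u⁻¹ : (Matrix (Fin n) (Fin n) ℝ)ˣ) : Matrix (Fin n) (Fin n) ℝ) =
      Matrix.diagonal β := by
    rw [h1, mul_assoc, Units.mul_inv, mul_one]
  rw [← Matrix.charpoly_units_conj u, ← Matrix.coe_units_inv, h2, Matrix.charpoly_diagonal]

private theorem szb_factor {n : ℕ} {y : Fin n → Fin n → ℝ} (hy : (Matrix.of y).det ≠ 0)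
    (hne : ∀ p : Fin n → ℤ, p ≠ 0 → ∀ i, ∑ j, y i j * (p j : ℝ) ≠ 0)
    {B : Matrix (Fin n) (Fin n) ℤ} {β : Fin n → ℝ}
    (hB : ∀ a b, ∑ l, y a l * (B l b : ℝ) = β a * y a b) {q : ℚ[X]} (hq : Irreducible q)
    (hqP : q ∣ (B.map (Int.castRingHom ℚ)).charpoly) (i : Fin n) : aeval (β i) q = 0 := by
  classical
  have hmap : (B.map (Int.castRingHom ℚ)).charpoly.map (algebraMap ℚ ℝ) =
      ∏ a, (X - C (β a)) := by
    rw [← Matrix.charpoly_map, ← szb_charpoly hy hB]
    congr 1
  have hspl : (∏ a, (X - C (β a)) : ℝ[X]).Splits := Polynomial.Splits.prod fun a _ => by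
    exact Polynomial.Splits.X_sub_C _
  have hdv : q.map (algebraMap ℚ ℝ) ∣ ∏ a, (X - C (β a)) := by
    rw [← hmap]
    exact Polynomial.map_dvd _ hqP
  have hne0 : (∏ a, (X - C (β a)) : ℝ[X]) ≠ 0 := by
    rw [Finset.prod_ne_zero_iff]
    intro a _
    exact X_sub_C_ne_zero _
  have hqs : (q.map (algebraMap ℚ ℝ)).Splits := hspl.of_dvd hne0 hdv
  obtain ⟨x, hx⟩ := hqs.exists_eval_eq_zero (by
    rw [Polynomial.degree_map]
    exact (Polynomial.degree_pos_of_irreducible hq).ne')
  have hx2 : (∏ a, (X - C (β a)) : ℝ[X]).eval x = 0 := by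
    obtain ⟨r, hr⟩ := hdv
    rw [hr, eval_mul, hx, zero_mul]
  rw [eval_prod, Finset.prod_eq_zero_iff] at hx2
  obtain ⟨a, -, ha⟩ := hx2
  rw [eval_sub, eval_X, eval_C, sub_eq_zero] at ha
  have hqa : aeval (β a) q = 0 := by
    rw [← ha, aeval_def, ← eval_map]
    exact hx
  have hBQ : ∀ c k, ∑ j, y c j * ((B.map (Int.castRingHom ℚ)) j k : ℝ) = β c * y c k := by
    intro c k
    have := hB c k
    simpa using this
  have hpe := fun c => poly_eigen (hBQ c) q
  set Q : Matrix (Fin n) (Fin n) ℚ := aeval (B.map (Int.castRingHom ℚ)) q with hQ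
  have hdet : Q.det = 0 := by
    by_contra hd
    have hdR : (Q.map (algebraMap ℚ ℝ)).det ≠ 0 := by
      have h1 : (Q.map (algebraMap ℚ ℝ)).det = algebraMap ℚ ℝ Q.det := by
        rw [RingHom.map_det]; rfl
      rw [h1]
      intro h2
      exact hd ((algebraMap ℚ ℝ).injective (by rw [h2, map_zero]))
    have h3 : Matrix.vecMul (y a) (Q.map (algebraMap ℚ ℝ)) = 0 := by
      funext k
      have h4 := hpe a k
      rw [hqa, zero_mul] at h4
      simpa [Matrix.vecMul, dotProduct] using h4
    have h5 : y a = 0 := by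
      by_contra hya
      exact hdR (Matrix.exists_vecMul_eq_zero_iff.1 ⟨y a, hya, h3⟩)
    apply hy
    exact Matrix.det_eq_zero_of_row_eq_zero a fun j => by
      rw [Matrix.of_apply, h5]; rfl
  obtain ⟨v, hv0, hv⟩ := Matrix.exists_mulVec_eq_zero_iff.2 hdet
  -- clear denominators
  obtain ⟨N, hN0, p, hp⟩ : ∃ N : ℤ, N ≠ 0 ∧ ∃ p : Fin n → ℤ, ∀ j, (p j : ℚ) = N * v j := by
    refine ⟨∏ j, ((v j).den : ℤ), ?_, fun j => (∏ l ∈ Finset.univ.erase j, ((v l).den : ℤ)) * (v j).num, ?_⟩
    · rw [Finset.prod_ne_zero_iff]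
      intro j _
      exact_mod_cast (v j).den_nz
    · intro j
      rw [← Finset.mul_prod_erase Finset.univ _ (Finset.mem_univ j)]
      push_cast
      have h1 : ((v j).den : ℚ) * v j = (v j).num := by
        rw [mul_comm]
        exact Rat.mul_den_eq_num (v j)
      calc (∏ l ∈ Finset.univ.erase j, ((v l).den : ℚ)) * ((v j).num : ℚ)
          = (∏ l ∈ Finset.univ.erase j, ((v l).den : ℚ)) * (((v j).den : ℚ) * v j) := by rw [h1]
        _ = _ := by ring
  have hp0 : p ≠ 0 := by
    intro h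
    apply hv0
    funext j
    have h1 := hp j
    rw [h] at h1
    simp only [Pi.zero_apply, Int.cast_zero] at h1
    have h2 : (N : ℚ) ≠ 0 := by exact_mod_cast hN0
    rcases mul_eq_zero.1 h1.symm with h3 | h3
    · exact absurd h3 h2
    · simpa using h3
  have hQp : ∀ j, ∑ k, ((Q j k : ℚ) : ℝ) * (p k : ℝ) = 0 := by
    intro j
    have h1 : ∑ k, Q j k * v k = 0 := by
      have := congrFun hv j
      simpa [Matrix.mulVec, dotProduct] using this
    have h2 : ∑ k, Q j k * (p k : ℚ) = 0 := by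
      calc ∑ k, Q j k * (p k : ℚ) = N * ∑ k, Q j k * v k := by
            rw [Finset.mul_sum]
            refine Finset.sum_congr rfl fun k _ => ?_
            rw [hp k]; ring
        _ = 0 := by rw [h1, mul_zero]
    have h3 := congrArg (fun t : ℚ => (t : ℝ)) h2
    push_cast at h3
    exact h3
  have hfin : aeval (β i) q * ∑ k, y i k * (p k : ℝ) = 0 := by
    calc aeval (β i) q * ∑ k, y i k * (p k : ℝ)
        = ∑ k, (aeval (β i) q * y i k) * (p k : ℝ) := by
          rw [Finset.mul_sum]
          exact Finset.sum_congr rfl fun k _ => by ring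
      _ = ∑ k, (∑ j, y i j * ((Q j k : ℚ) : ℝ)) * (p k : ℝ) :=
          Finset.sum_congr rfl fun k _ => by rw [hpe i k]
      _ = ∑ k, ∑ j, y i j * (((Q j k : ℚ) : ℝ) * (p k : ℝ)) := by
          refine Finset.sum_congr rfl fun k _ => ?_
          rw [Finset.sum_mul]
          exact Finset.sum_congr rfl fun j _ => by ring
      _ = ∑ j, y i j * ∑ k, ((Q j k : ℚ) : ℝ) * (p k : ℝ) := by
          rw [Finset.sum_comm]
          exact Finset.sum_congr rfl fun j _ => by rw [Finset.mul_sum]
      _ = 0 := Finset.sum_eq_zero fun j _ => by rw [hQp j, mul_zero]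
  rcases mul_eq_zero.1 hfin with h | h
  · exact h
  · exact absurd h (hne p hp0 i)

open Classical in
theorem sizes {n : ℕ} (hn : 1 ≤ n) {y : Fin n → Fin n → ℝ} (hy : (Matrix.of y).det ≠ 0)
    (hne : ∀ p : Fin n → ℤ, p ≠ 0 → ∀ i, ∑ j, y i j * (p j : ℝ) ≠ 0)
    {B : Matrix (Fin n) (Fin n) ℤ} {β : Fin n → ℝ}
    (hB : ∀ a b, ∑ l, y a l * (B l b : ℝ) = β a * y a b) :
    ∃ (q : ℚ[X]) (d : ℕ), Irreducible q ∧ (B.map (Int.castRingHom ℚ)).charpoly = q ^ d ∧
      d * q.natDegree = n ∧ ∀ i, (Finset.univ.filter fun k => β k = β i).card = d := by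
  obtain ⟨P, hP⟩ : ∃ P, P = (B.map (Int.castRingHom ℚ)).charpoly := ⟨_, rfl⟩
  have hPm : P.Monic := by rw [hP]; exact Matrix.charpoly_monic _
  have hPd : P.natDegree = n := by
    rw [hP, Matrix.charpoly_natDegree_eq_dim, Fintype.card_fin]
  have hPu : ¬ IsUnit P := by
    intro h
    have := natDegree_eq_zero_of_isUnit h
    omega
  obtain ⟨q, hqm, hqi, hqP⟩ := exists_monic_irreducible_factor P hPu
  let i0 : Fin n := ⟨0, hn⟩
  have hall : ∀ r : ℚ[X], r ∈ UniqueFactorizationMonoid.normalizedFactors P → r = q := by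
    intro r hr
    have hri : Irreducible r := UniqueFactorizationMonoid.irreducible_of_normalized_factor r hr
    have hrP : r ∣ P := UniqueFactorizationMonoid.dvd_of_mem_normalizedFactors hr
    have hrm : r.Monic := by
      have h1 := UniqueFactorizationMonoid.normalize_normalized_factor r hr
      rw [← h1]
      exact Polynomial.monic_normalize hri.ne_zero
    have h2 := szb_factor hy hne hB hri (by rw [← hP]; exact hrP) i0
    have h3 := szb_factor hy hne hB hqi (by rw [← hP]; exact hqP) i0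
    rw [minpoly.eq_of_irreducible_of_monic hri h2 hrm,
      minpoly.eq_of_irreducible_of_monic hqi h3 hqm]
  obtain ⟨d, hd⟩ : ∃ d, d = (UniqueFactorizationMonoid.normalizedFactors P).card := ⟨_, rfl⟩
  have hPq : P = q ^ d := by
    have h1 : UniqueFactorizationMonoid.normalizedFactors P = Multiset.replicate d q :=
      Multiset.eq_replicate.2 ⟨hd.symm, hall⟩
    have h2 := UniqueFactorizationMonoid.prod_normalizedFactors hPm.ne_zero
    rw [h1, Multiset.prod_replicate] at h2
    exact (eq_of_monic_of_associated (hqm.pow d) hPm h2).symm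
  refine ⟨q, d, hqi, by rw [← hP]; exact hPq, ?_, ?_⟩
  · rw [← hPd, hPq, natDegree_pow]
  · intro i
    have hmap : P.map (algebraMap ℚ ℝ) = ∏ a, (X - C (β a)) := by
      rw [hP, ← Matrix.charpoly_map, ← szb_charpoly hy hB]
      congr 1
    have hr1 : (P.map (algebraMap ℚ ℝ)).roots = Finset.univ.val.map β := by
      rw [hmap]
      have h1 : (∏ a, (X - C (β a)) : ℝ[X]) = (Multiset.map (fun a => X - C a) (Finset.univ.val.map β)).prod := by
        rw [Multiset.map_map]
        rfl
      rw [h1, roots_multiset_prod_X_sub_C]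
    have hr2 : (P.map (algebraMap ℚ ℝ)).roots = d • (q.map (algebraMap ℚ ℝ)).roots := by
      rw [hPq, Polynomial.map_pow, roots_pow]
    have hsep : (q.map (algebraMap ℚ ℝ)).Separable := hqi.separable.map
    have hmem : β i ∈ (q.map (algebraMap ℚ ℝ)).roots := by
      rw [mem_roots (hsep.ne_zero)]
      have h3 := szb_factor hy hne hB hqi (by rw [← hP]; exact hqP) i
      rw [IsRoot, eval_map, ← aeval_def]
      exact h3
    have hc : Multiset.count (β i) (q.map (algebraMap ℚ ℝ)).roots = 1 :=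
      Multiset.count_eq_one_of_mem (nodup_roots hsep) hmem
    have hc2 : Multiset.count (β i) (Finset.univ.val.map β) = d := by
      rw [← hr1, hr2, Multiset.count_nsmul, hc, mul_one]
    rw [Multiset.count_map] at hc2
    rw [← hc2, Finset.card_def, Finset.filter_val]
    congr 1
    refine Multiset.filter_congr fun a _ => ?_
    exact eq_comm

end Pool.Agent.Work.MP_77d073_nt.Blk
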