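import Pool.Agent.Work.MP_77d073_nt.Blk.Grw
import Pool.Agent.Work.MP_77d073_nt.Blk.Siz
import Pool.Agent.Work.MP_77d073_nt.HypResult

set_option autoImplicit false

/-!
# Blk/Main: the structure theorem from the modules (proved).
-/

namespace Pool.Agent.Work.MP_77d073_nt.Blk

open Filter Topology Polynomial
open Pool.Agent.Work.MP_77d073_nt Pool.Agent.Work.MP_77d073_nt.Root

theorem ne_of_low {n : ℕ} {c : ℝ} (hc : 0 < c) {y : Fin n → Fin n → ℝ}
    (hlow : ∀ p : Fin n → ℤ, p ≠ 0 → c ≤ |∏ i, ∑ j, y i j * (p j : ℝ)|)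
    (p : Fin n → ℤ) (hp : p ≠ 0) (i : Fin n) : ∑ j, y i j * (p j : ℝ) ≠ 0 := by
  intro h0
  have h3 := hlow p hp
  rw [Finset.prod_eq_zero (Finset.mem_univ i) h0, abs_zero] at h3
  linarith

open Classical in
theorem structure_thm {n : ℕ} (hn : 3 ≤ n) {L : Fin n → Fin n → ℝ} (hL : LinearIndependent ℝ L)
    {c : ℝ} (hc : 0 < c) (hlow : ∀ p : Fin n → ℤ, p ≠ 0 → c ≤ |∏ i, ∑ j, L i j * (p j : ℝ)|)
    (hnot : ¬ Cn L) :
    ∃ y ∈ closure (orb L), ∃ (B : Matrix (Fin n) (Fin n) ℤ) (β : Fin n → ℝ) (q : ℚ[X]) (d : ℕ),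
      (∀ a b, ∑ l, y a l * (B l b : ℝ) = β a * y a b) ∧ Irreducible q ∧
      (B.map (Int.castRingHom ℚ)).charpoly = q ^ d ∧ 2 ≤ d ∧ d * q.natDegree = n ∧
      (∀ i, (Finset.univ.filter fun k => β k = β i).card = d) ∧
      (∀ y' ∈ closure (orb y), Eig y' β ∧
        ∀ β' : Fin n → ℝ, Eig y' β' → ∀ i k, β i = β k → β' i = β' k) ∧
      ∀ i k, i ≠ k → β i = β k → Pr (closure (orb y)) i k := by
  have hLdet := (li_iff_det L).mp hL
  obtain ⟨y₀, hy₀, hmax⟩ := exists_max hLdet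
  have hX := bs_of_max hLdet hc hlow hy₀ hmax
  obtain ⟨β, ⟨B, hB⟩, hβ⟩ := exists_sep y₀
  have hy0det : (Matrix.of y₀).det ≠ 0 := hX.good.ne hX.Dpos hX.mem
  have hlow0 := hX.good.low y₀ hX.mem
  obtain ⟨q, d, hq, hqd, hdn, hcard⟩ := sizes (by omega) hy0det
    (fun p hp i => ne_of_low hc hlow0 p hp i) hB
  refine ⟨y₀, hy₀, B, β, q, d, hB, hq, hqd, ?_, hdn, hcard, fun y' hy' =>
    ⟨hX.eig y' hy' β ⟨B, hB⟩, fun β' hβ' i k h => hX.same y' hy' i k (hβ i k h) β' hβ'⟩,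
    fun i k hik h => arrows hn hX hik (hβ i k h)⟩
  by_contra hd
  have hd1 : d = 1 := by
    have h0 : d ≠ 0 := by
      rintro rfl
      rw [zero_mul] at hdn
      omega
    omega
  subst hd1
  obtain ⟨M, t, hM, ht, hlim⟩ := mem_closure_orb hy₀
  have i0 : Fin n := ⟨0, by omega⟩
  apply hnot
  have hirr : Irreducible (B.map (Int.castRingHom ℚ)).charpoly := by rw [hqd, pow_one]; exact hq
  refine Pool.Agent.Work.MP_77d073_nt.HypResult.result n hn L hL ⟨c, hc, hlow⟩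
    M t y₀ (fun k => (hM k).ne_zero) ht hlim i0 (B.map (Int.castRingHom ℚ)) hirr ?_
  intro x hx
  have h1 : ∀ l, (((B.map (Int.castRingHom ℚ)).map (Rat.cast : ℚ → ℝ)).mulVec x) l =
      ∑ j, (B l j : ℝ) * x j := by
    intro l
    simp [Matrix.mulVec, dotProduct]
  simp_rw [h1]
  have h2 : ∑ j, y₀ i0 j * ∑ l, (B j l : ℝ) * x l = β i0 * ∑ j, y₀ i0 j * x j := by
    simp_rw [Finset.mul_sum]
    rw [Finset.sum_comm]
    refine Finset.sum_congr rfl fun l _ => ?_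
    have h3 := hB i0 l
    calc ∑ j, y₀ i0 j * ((B j l : ℝ) * x l) = (∑ j, y₀ i0 j * (B j l : ℝ)) * x l := by
          rw [Finset.sum_mul]
          exact Finset.sum_congr rfl fun j _ => by ring
      _ = _ := by rw [h3]; ring
  rw [h2, hx, mul_zero]

end Pool.Agent.Work.MP_77d073_nt.Blk
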