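import Mathlib
import Pool.Agent.Work.MP_77d073_nt.RootDefs

set_option autoImplicit false

/-!
# Blk/Defs: definitions for the block structure theorem. FIXED.
-/

namespace Pool.Agent.Work.MP_77d073_nt.Blk

open Pool.Agent.Work.MP_77d073_nt Pool.Agent.Work.MP_77d073_nt.Root

/-- The forms `y a` are eigenforms of one integer matrix, with the eigenvalues `β a`. -/
def Eig {n : ℕ} (y : Fin n → Fin n → ℝ) (β : Fin n → ℝ) : Prop :=
  ∃ B : Matrix (Fin n) (Fin n) ℤ, ∀ a b, ∑ l, y a l * (B l b : ℝ) = β a * y a b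

/-- `i` and `k` belong to the same class of `y`. -/
def Rl {n : ℕ} (y : Fin n → Fin n → ℝ) (i k : Fin n) : Prop :=
  ∀ β : Fin n → ℝ, Eig y β → β i = β k

/-- The matrix `g` differs from `1` only in the block `C × C`. -/
def Sup {n : ℕ} (C : Finset (Fin n)) (g : Matrix (Fin n) (Fin n) ℝ) : Prop :=
  ∀ a b, ¬ (a ∈ C ∧ b ∈ C) → g a b = (1 : Matrix (Fin n) (Fin n) ℝ) a b

/-- Integer weights: constant on `C`, quickly growing outside `C`, total zero. -/
def wt {n : ℕ} (C : Finset (Fin n)) (a : Fin n) : ℤ :=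
  if a ∈ C then - ∑ j ∈ Cᶜ, (4 * (n : ℤ) ^ 2 + 2) ^ (j : ℕ)
  else (C.card : ℤ) * (4 * (n : ℤ) ^ 2 + 2) ^ (a : ℕ)

/-- The scaling with the logarithms `r * wt C a`. -/
noncomputable def wx {n : ℕ} (C : Finset (Fin n)) (r : ℝ) (a : Fin n) : ℝ :=
  Real.exp (r * (wt C a : ℝ))

/-- The standing assumptions on the set `X`: closed, invariant, `|det| = D > 0`, values at least
`c > 0`, and all points of `X` have the classes of `y₀` and the eigenvalue vectors of `y₀`. -/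
structure Bs {n : ℕ} (c D : ℝ) (y₀ : Fin n → Fin n → ℝ) (X : Set (Fin n → Fin n → ℝ)) : Prop where
  cpos : 0 < c
  Dpos : 0 < D
  ci : CI X
  good : Good c D X
  mem : y₀ ∈ X
  eig : ∀ y ∈ X, ∀ β : Fin n → ℝ, Eig y₀ β → Eig y β
  rl : ∀ y ∈ X, ∀ i k, Rl y i k → Rl y₀ i k
  same : ∀ y ∈ X, ∀ i k, Rl y₀ i k → Rl y i k

/-- The growth invariant: at one point `z` of `X` a family of matrices `g s`, supported in `C × C`,
whose rows of index `i` span the functions on `C`, and `g s z ∈ X`. -/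
def Gr {n : ℕ} (X : Set (Fin n → Fin n → ℝ)) (i : Fin n) (C : Finset (Fin n)) : Prop :=
  ∃ z ∈ X, ∃ (ι : Type) (g : ι → Matrix (Fin n) (Fin n) ℝ), (∀ s, Sup C (g s)) ∧
    (∃ s, g s = 1) ∧ (∀ s, ac (g s) z ∈ X) ∧
    ∀ v : Fin n → ℝ, (∀ a, a ∉ C → v a = 0) → (∀ s, ∑ a, g s i a * v a = 0) → v = 0

theorem Rl.symm {n : ℕ} {y : Fin n → Fin n → ℝ} {i k : Fin n} (h : Rl y i k) : Rl y k i :=
  fun β hβ => (h β hβ).symm

theorem Rl.trans {n : ℕ} {y : Fin n → Fin n → ℝ} {i k m : Fin n} (h : Rl y i k) (h' : Rl y k m) :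
    Rl y i m := fun β hβ => (h β hβ).trans (h' β hβ)

theorem Rl.refl {n : ℕ} (y : Fin n → Fin n → ℝ) (i : Fin n) : Rl y i i := fun _ _ => rfl

end Pool.Agent.Work.MP_77d073_nt.Blk
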