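import Pool.Agent.Work.MP_77d073_nt.Blk.Stp
import Pool.Agent.Work.MP_77d073_nt.Wall.Keep

set_option autoImplicit false

/-!
# Blk/GrA (M-L): growth of the block

grow: let `Gr X i C` be given by `x, ι, g`. `step_wt` gives `z, B`. As some `g s = 1` (s0): `z = ac (g s0) z ∈ X` and
`ac (1 + B) z ∈ X`; `no_cross` gives `Rl y₀ a b` whenever `B a b ≠ 0`. Choose `a, b` with `B a b ≠ 0`: `b ∉ C`, and
`Rl y₀ i b` since `Rl y₀ i a` (a ∈ C, hcl) and `Rl y₀ a b`. The vector `v a' = B a' b` is zero off `C` and not zero, so some s has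
`∑ a', g s i a' * B a' b ≠ 0`, that is `(g s * B) i b ≠ 0`. Put `y = ac (g s) z ∈ X`; `N = g s * B` is supported in `C × Cᶜ` (if `a' ∉ C`:
`g s a' . = 1 a' .`, so `N a' b' = B a' b' = 0`; columns in C: B has none) and `ac (1 + N) y = ac (g s * (1 + B)) z`, because
`(1 + g s * B) * g s = g s + g s * (B * g s)` and `B * g s = B` (rows of `g s` outside `C` are those of 1). `isolate` (RootIso.lean, P = C) gives
`Pr X i b`.
New invariant for `insert b C`: apply `keep` (Wall/Keep.lean) with `E = insert b C`, the family `ι ⊕ ι`, `g s` and `g s * (1 + B)` (for `a ∉ E`,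
`b' ∈ E`: `g s a b' = 1 a b' = 0` as `a ≠ b'`, and `(g s * B) a b' = B a b' = 0`) to get `z'` with `ac (g s) z' ∈ X` (`keep` does not change `g s`:
for `a ∈ E`, `b' ∉ E` the entry `g s a b'` is 0 already) and `ac (g s * (1 + B0)) z' ∈ X` with `B0 a b' = if b' = b then B a b' else 0`
(entries of `g s * (1 + B)` with row in `E` and column outside `E` erased; rows outside `E` are those of 1; check entrywise:
`g s * (1 + B0) = fun a b' => if a ∈ E ∧ b' ∉ E then 0 else (g s * (1 + B)) a b'`). Note `z' ∈ X` also from `g s0 = 1`. New family: `Sum.elim g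
(fun s => g s * (1 + B0))`, supported in `E × E`. Spanning: let `v = 0` off `E` and all rows of index i kill v. From `g s` (row `g s i a = 0` for
`a ∉ C`; note `i ∈ C`) the function `v` restricted to `C` (v' = v on C, 0 off C) is killed, so `v = 0` on `C`. Then `(g s * (1 + B0)) i . v =
(g s * B) i b * v b = 0` for all s, so `v b = 0` by the choice of s.
-/

namespace Pool.Agent.Work.MP_77d073_nt.Blk

open Filter Topology
open Pool.Agent.Work.MP_77d073_nt Pool.Agent.Work.MP_77d073_nt.Root

private theorem mul_g {n : ℕ} {C : Finset (Fin n)} {B g : Matrix (Fin n) (Fin n) ℝ}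
    (hB : ∀ a b, B a b ≠ 0 → a ∈ C ∧ b ∉ C) (hg : Sup C g) : B * g = B := by
  ext a b
  rw [Matrix.mul_apply]
  have h1 : ∀ c, B a c * g c b = B a c * (1 : Matrix (Fin n) (Fin n) ℝ) c b := by
    intro c
    by_cases h : B a c = 0
    · rw [h, zero_mul, zero_mul]
    · rw [hg c b (fun h' => (hB a c h).2 h'.1)]
  rw [Finset.sum_congr rfl (fun c _ => h1 c), ← Matrix.mul_apply, mul_one]

private theorem g_mul {n : ℕ} {C : Finset (Fin n)} {B g : Matrix (Fin n) (Fin n) ℝ}
    (hg : Sup C g) {a : Fin n} (ha : a ∉ C) (b : Fin n) : (g * B) a b = B a b := by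
  rw [Matrix.mul_apply]
  have h1 : ∀ c, g a c * B c b = (1 : Matrix (Fin n) (Fin n) ℝ) a c * B c b := by
    intro c
    rw [hg a c (fun h' => ha h'.1)]
  rw [Finset.sum_congr rfl (fun c _ => h1 c), ← Matrix.mul_apply, one_mul]

theorem grow {n : ℕ} (hn : 3 ≤ n) {c D : ℝ} {y₀ : Fin n → Fin n → ℝ}
    {X : Set (Fin n → Fin n → ℝ)} (hX : Bs c D y₀ X) {i : Fin n} (C : Finset (Fin n))
    (hi : i ∈ C) (hcl : ∀ a ∈ C, Rl y₀ i a) (hun : ∃ j, j ∉ C ∧ Rl y₀ i j) (h : Gr X i C) :
    ∃ b, b ∉ C ∧ Rl y₀ i b ∧ Pr X i b ∧ Gr X i (insert b C) := by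
  classical
  have hn1 : 1 ≤ n := by omega
  obtain ⟨β, hβ, hbox0⟩ := meets_box (n := n) hn1 hX.cpos hX.Dpos
  have hbox : Red X β := fun L hL => hbox0 X hX.ci hX.good L hL
  obtain ⟨j, hjC, hij⟩ := hun
  have hC' : Cᶜ.Nonempty := ⟨j, Finset.mem_compl.mpr hjC⟩
  obtain ⟨x, hxX, ι, g, hg, ⟨s0, hs0⟩, hgx, hspan⟩ := h
  obtain ⟨z, hzX, B, hB, ⟨a0, b, hab⟩, hgz, hgBz⟩ :=
    step_wt hn hX C ⟨i, hi⟩ hC' ⟨i, hi, j, hjC, hij⟩ g hg hxX hgx
  have h1B : ac (1 + B) z ∈ X := by
    have h1 := hgBz s0
    rwa [hs0, one_mul] at h1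
  have hB0 : ∀ a b, a ∉ C → B a b = 0 := by
    intro a b ha
    by_contra hne
    exact ha (hB a b hne).1
  have hB1 : ∀ a b, b ∈ C → B a b = 0 := by
    intro a b hb
    by_contra hne
    exact (hB a b hne).2 hb
  obtain ⟨ha0, hbC⟩ := hB a0 b hab
  have hRl : Rl y₀ i b := (hcl a0 ha0).trans (no_cross hX C hC' hB hzX h1B hab)
  have hib : i ≠ b := fun h => hbC (h ▸ hi)
  obtain ⟨s1, hs1⟩ : ∃ s, ∑ a, g s i a * B a b ≠ 0 := by
    by_contra hcon
    push Not at hcon
    have h1 := hspan (fun a => B a b) (fun a ha => hB0 a b ha) hcon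
    exact hab (congrFun h1 a0)
  have hN : ∀ a b, (g s1 * B) a b ≠ 0 → a ∈ C ∧ b ∉ C := by
    intro a b' hne
    constructor
    · by_contra ha
      apply hne
      rw [g_mul (hg s1) ha, hB0 a b' ha]
    · intro hb'
      apply hne
      rw [Matrix.mul_apply]
      exact Finset.sum_eq_zero (fun c _ => by rw [hB1 c b' hb', mul_zero])
  have hNib : (g s1 * B) i b ≠ 0 := by
    rw [Matrix.mul_apply]
    exact hs1
  have hPr : Pr X i b := by
    refine isolate hX.ci hbox C (g s1 * B) hN (hgz s1) ?_ hNib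
    rw [← ac_mul]
    have h1 : (1 + g s1 * B) * g s1 = g s1 * (1 + B) := by
      rw [add_mul, one_mul, mul_assoc, mul_g hB (hg s1), mul_add, mul_one]
    rw [h1]
    exact hgBz s1
  refine ⟨b, hbC, hRl, hPr, ?_⟩
  set E : Finset (Fin n) := insert b C with hE
  have hCE : ∀ a, a ∉ E → a ∉ C := fun a ha h => ha (Finset.mem_insert_of_mem h)
  set G : ι ⊕ ι → Matrix (Fin n) (Fin n) ℝ := Sum.elim g (fun s => g s * (1 + B)) with hG
  have hrow : ∀ s a b', a ∉ C → G s a b' = (1 : Matrix (Fin n) (Fin n) ℝ) a b' := by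
    intro s a b' ha
    rcases s with s | s
    · exact hg s a b' (fun h => ha h.1)
    · show (g s * (1 + B)) a b' = _
      rw [mul_add, mul_one, Matrix.add_apply, g_mul (hg s) ha, hB0 a b' ha, add_zero]
      exact hg s a b' (fun h => ha h.1)
  have hone : ∀ a b' : Fin n, a ≠ b' → (1 : Matrix (Fin n) (Fin n) ℝ) a b' = 0 :=
    fun a b' h => Matrix.one_apply_ne h
  obtain ⟨z', hz'X, hz'⟩ := keep hX.ci hbox E G (fun s a b' ha hb' => by
    rw [hrow s a b' (hCE a ha), hone a b' (fun h => ha (h ▸ hb'))]) hzX (fun s => by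
      rcases s with s | s
      · exact hgz s
      · exact hgBz s)
  have hinl : ∀ s a b', (if a ∈ E ∧ b' ∉ E then 0 else G (Sum.inl s) a b') = g s a b' := by
    intro s a b'
    split_ifs with h
    · have h1 : g s a b' = (1 : Matrix (Fin n) (Fin n) ℝ) a b' :=
        hg s a b' (fun h' => hCE b' h.2 h'.2)
      rw [h1, hone a b' (fun h' => h.2 (h' ▸ h.1))]
    · rfl
  refine ⟨z', hz'X, ι ⊕ ι, fun s => (fun a b' => if a ∈ E ∧ b' ∉ E then 0 else G s a b'),
    ?_, ?_, hz', ?_⟩
  · intro s a b' hnot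
    show (if a ∈ E ∧ b' ∉ E then 0 else G s a b') = _
    split_ifs with h
    · rw [hone a b' (fun h' => h.2 (h' ▸ h.1))]
    · have ha : a ∉ E := by
        intro ha
        by_cases hb : b' ∈ E
        · exact hnot ⟨ha, hb⟩
        · exact h ⟨ha, hb⟩
      exact hrow s a b' (hCE a ha)
  · refine ⟨Sum.inl s0, ?_⟩
    funext a b'
    show (if a ∈ E ∧ b' ∉ E then 0 else G (Sum.inl s0) a b') = _
    rw [hinl s0 a b', hs0]
  · intro v hv hker
    have hvC : ∀ a ∈ C, v a = 0 := by
      have h1 := hspan (fun a => if a ∈ C then v a else 0) (fun a ha => if_neg ha) (fun s => by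
        have h2 := hker (Sum.inl s)
        refine (Finset.sum_congr rfl (fun a _ => ?_)).trans h2
        show g s i a * (if a ∈ C then v a else 0) =
          (if i ∈ E ∧ a ∉ E then 0 else G (Sum.inl s) i a) * v a
        rw [hinl s i a]
        by_cases ha : a ∈ C
        · rw [if_pos ha]
        · rw [if_neg ha, hg s i a (fun h => ha h.2), hone i a (fun h => ha (h ▸ hi))]
          ring)
      intro a ha
      have h2 := congrFun h1 a
      simp only [if_pos ha] at h2
      exact h2
    have hvb : v b = 0 := by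
      have h2 := hker (Sum.inr s1)
      rw [Finset.sum_eq_single b] at h2
      · have h3 : (if i ∈ E ∧ b ∉ E then 0 else G (Sum.inr s1) i b) = (g s1 * B) i b := by
          rw [if_neg (fun h => h.2 (Finset.mem_insert_self b C))]
          show (g s1 * (1 + B)) i b = _
          rw [mul_add, mul_one, Matrix.add_apply, hg s1 i b (fun h => hbC h.2), hone i b hib,
            zero_add]
        have h4 : (g s1 * B) i b * v b = 0 := by
          rw [← h3]
          exact h2
        exact (mul_eq_zero.mp h4).resolve_left hNib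
      · intro a _ hab'
        by_cases ha : a ∈ C
        · rw [hvC a ha, mul_zero]
        · have ha' : a ∉ E := by
            intro h
            rcases Finset.mem_insert.mp h with h | h
            · exact hab' h
            · exact ha h
          rw [hv a ha', mul_zero]
      · intro h
        exact absurd (Finset.mem_univ b) h
    funext a
    by_cases ha : a ∈ C
    · exact hvC a ha
    · by_cases hab' : a = b
      · rw [hab']
        exact hvb
      · apply hv a
        intro h
        rcases Finset.mem_insert.mp h with h | h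
        · exact hab' h
        · exact ha h

end Pool.Agent.Work.MP_77d073_nt.Blk
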