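import Pool.Agent.Work.MP_77d073_nt.Blk.GrA

set_option autoImplicit false

/-!
# Blk/Grw (S-M): all arrows inside a class

arrows: induction on the number of elements of the class of i not in `C`, starting with `C = {i}`, `ι = Unit`, `g = 1`, `z = y₀`
(spanning: `v i = 0`). While the class of i is not contained in C, `grow` applies with `C` inside the class; its new element b satisfies
`Pr X i b` and `Rl y₀ i b`. Keep the statement: every `k ∈ C`, `k ≠ i` has `Pr X i k`.
-/

namespace Pool.Agent.Work.MP_77d073_nt.Blk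

open Filter Topology
open Pool.Agent.Work.MP_77d073_nt Pool.Agent.Work.MP_77d073_nt.Root

private theorem arrows_aux {n : ℕ} (hn : 3 ≤ n) {c D : ℝ} {y₀ : Fin n → Fin n → ℝ}
    {X : Set (Fin n → Fin n → ℝ)} (hX : Bs c D y₀ X) {i : Fin n} (m : ℕ) :
    ∀ C : Finset (Fin n), Cᶜ.card = m → i ∈ C → (∀ a ∈ C, Rl y₀ i a) → Gr X i C →
      (∀ k ∈ C, k ≠ i → Pr X i k) → ∀ k, k ≠ i → Rl y₀ i k → Pr X i k := by
  classical
  induction m using Nat.strong_induction_on with
  | _ m ih =>
    intro C hm hi hcl hG hP k hk hR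
    by_cases hun : ∃ j, j ∉ C ∧ Rl y₀ i j
    · obtain ⟨b, hbC, hbR, hbP, hbG⟩ := grow hn hX C hi hcl hun hG
      have h1 : (insert b C)ᶜ.card < m := by
        rw [← hm]
        refine Finset.card_lt_card ?_
        rw [Finset.ssubset_iff_of_subset]
        · exact ⟨b, Finset.mem_compl.2 hbC, by simp⟩
        · intro x hx
          rw [Finset.mem_compl] at hx ⊢
          exact fun h => hx (Finset.mem_insert_of_mem h)
      refine ih _ h1 (insert b C) rfl (Finset.mem_insert_of_mem hi) ?_ hbG ?_ k hk hR
      · intro a ha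
        rcases Finset.mem_insert.1 ha with rfl | ha
        · exact hbR
        · exact hcl a ha
      · intro a ha hai
        rcases Finset.mem_insert.1 ha with rfl | ha
        · exact hbP
        · exact hP a ha hai
    · have hkC : k ∈ C := by
        by_contra h1
        exact hun ⟨k, h1, hR⟩
      exact hP k hkC hk

theorem arrows {n : ℕ} (hn : 3 ≤ n) {c D : ℝ} {y₀ : Fin n → Fin n → ℝ}
    {X : Set (Fin n → Fin n → ℝ)} (hX : Bs c D y₀ X) {i k : Fin n} (hik : i ≠ k)
    (h : Rl y₀ i k) : Pr X i k := by
  classical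
  refine arrows_aux hn hX _ {i} rfl (Finset.mem_singleton_self i) ?_ ?_ ?_ k (Ne.symm hik) h
  · intro a ha
    rw [Finset.mem_singleton.1 ha]
    exact Rl.refl y₀ i
  · refine ⟨y₀, hX.mem, Unit, fun _ => 1, ?_, ⟨(), rfl⟩, ?_, ?_⟩
    · intro _ a b _
      rfl
    · intro _
      rw [ac_one]
      exact hX.mem
    · intro v hv hs
      funext a
      by_cases ha : a = i
      · have h1 := hs ()
        simp only [Matrix.one_apply, ite_mul, one_mul, zero_mul, Finset.sum_ite_eq,
          Finset.mem_univ, if_true] at h1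
        rw [ha, h1]
        rfl
      · exact hv a (fun h2 => ha (Finset.mem_singleton.1 h2))
  · intro a ha hai
    exact absurd (Finset.mem_singleton.1 ha) hai

end Pool.Agent.Work.MP_77d073_nt.Blk
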