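import Pool.Agent.Work.MP_77d073_nt.Blk.Wt
import Pool.Agent.Work.MP_77d073_nt.RootIrr

set_option autoImplicit false

/-!
# Blk/Irr (M, adaptation of RootIrr.irr_block): irreducible return matrices

irr_root_t: copy the proof of `irr_root` (RootIrr.lean) with `t` in place of `bt P r` (only positivity of `bt`
is used there).
irr_wt: copy `irr_block`. `ε = 1 / (8 n^2)`. Every root `z` of the characteristic polynomial has
`|‖z‖ * wx C r b - 1| ≤ n ε` for some `b =: lab z`, and `irr_log` (with `y = r * wt C b`) gives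
`|log ‖z‖ - r * (- wt C (lab z))| ≤ 2 n ε`. For a monic divisor `g` with unit constant term and roots `S`:
`irr_sum` with `c z = - wt C (lab z)` and `irr_log_prod`, `‖S.prod‖ = 1` give `|r * ∑ c| < 1`, so
`∑ z ∈ S, wt C (lab z) = 0`. With `ν a = S.countP (lab z = a)`: `∑ a, ν a = card S = natDegree g ≤ n` and
`∑ a, ν a * wt C a = ∑ z ∈ S, wt C (lab z) = 0` (induction on the multiset), so `wt_count` gives
`natDegree g = 0` or `n`. The rest is the end of the proof of `irr_block`.
-/

namespace Pool.Agent.Work.MP_77d073_nt.Blk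

open Polynomial Pool.Agent.Work.MP_77d073_nt Pool.Agent.Work.MP_77d073_nt.Root

theorem irr_root_t {n : ℕ} {X : Fin n → Fin n → ℝ}
    (hX : (Matrix.of X).det ≠ 0) {G : Matrix (Fin n) (Fin n) ℝ} {t : Fin n → ℝ}
    (ht : ∀ b, 0 < t b) {M : Matrix (Fin n) (Fin n) ℤ} {ε : ℝ}
    (hG : ∀ a b, |G a b - (1 : Matrix (Fin n) (Fin n) ℝ) a b| ≤ ε)
    (hac : ac G X = tr X M t) {z : ℂ}
    (hz : (M.charpoly.map (Int.castRingHom ℂ)).IsRoot z) :
    ∃ b, |‖z‖ * t b - 1| ≤ n * ε := by
  classical
  set A : Matrix (Fin n) (Fin n) ℂ := M.map (Int.castRingHom ℂ) with hA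
  set Xc : Matrix (Fin n) (Fin n) ℂ := (Matrix.of X).map (algebraMap ℝ ℂ) with hXc
  set Gc : Matrix (Fin n) (Fin n) ℂ := G.map (algebraMap ℝ ℂ) with hGc
  set Dc : Matrix (Fin n) (Fin n) ℂ := Matrix.diagonal (fun a => ((t a : ℝ) : ℂ)) with hDc
  have h1 : (Matrix.scalar (Fin n) z - A).det = 0 := by
    have e : (M.charpoly.map (Int.castRingHom ℂ)) = A.charpoly := (Matrix.charpoly_map _ _).symm
    rw [e, IsRoot.def, Matrix.eval_charpoly] at hz
    exact hz
  have h2 : Gc * Xc = Dc * Xc * A := by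
    ext a b
    rw [Matrix.mul_apply, Matrix.mul_assoc, hDc, Matrix.diagonal_mul, Matrix.mul_apply]
    have := congrFun (congrFun hac a) b
    simp only [ac, tr] at this
    simp only [hGc, hXc, hA, Matrix.map_apply, Matrix.of_apply]
    have h3 := congrArg (fun x : ℝ => (x : ℂ)) this
    simp only [Complex.ofReal_sum, Complex.ofReal_mul, Complex.ofReal_intCast] at h3
    simpa using h3
  have h4 : (Matrix.scalar (Fin n) z * Dc - Gc) * Xc = Dc * Xc * (Matrix.scalar (Fin n) z - A) := by
    rw [sub_mul, h2, mul_sub]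
    congr 1
    have : Matrix.scalar (Fin n) z * Dc = Dc * Matrix.scalar (Fin n) z :=
      Matrix.scalar_commute z (fun _ => Commute.all _ _) Dc
    rw [this, Matrix.mul_assoc, Matrix.mul_assoc]
    congr 1
    exact Matrix.scalar_commute z (fun _ => Commute.all _ _) Xc
  have h5 : (Matrix.scalar (Fin n) z * Dc - Gc).det = 0 := by
    have h6 := congrArg Matrix.det h4
    rw [Matrix.det_mul, Matrix.det_mul _ (Matrix.scalar (Fin n) z - A), h1, mul_zero] at h6
    have h7 : Xc.det ≠ 0 := by
      rw [hXc, ← RingHom.mapMatrix_apply, ← RingHom.map_det]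
      simpa using hX
    exact (mul_eq_zero.1 h6).resolve_right h7
  obtain ⟨v, hv, hv0⟩ := Matrix.exists_vecMul_eq_zero_iff.2 h5
  have h8 : ∀ b, v b * (z * (t b : ℝ)) = ∑ a, v a * Gc a b := by
    intro b
    have := congrFun hv0 b
    rw [Matrix.vecMul_sub, Pi.sub_apply, Pi.zero_apply, sub_eq_zero] at this
    have e : Matrix.vecMul v (Matrix.scalar (Fin n) z * Dc) b = v b * (z * (t b : ℝ)) := by
      rw [Matrix.scalar_apply, hDc, Matrix.diagonal_mul_diagonal, Matrix.vecMul_diagonal]
    rw [e] at this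
    rw [this]
    rfl
  obtain ⟨i0, hi0⟩ := Function.ne_iff.1 hv
  have : Nonempty (Fin n) := ⟨i0⟩
  obtain ⟨i, hi⟩ := Finite.exists_max (fun j => ‖v j‖)
  have hpos : 0 < ‖v i‖ := lt_of_lt_of_le (norm_pos_iff.2 hi0) (hi i0)
  refine ⟨i, ?_⟩
  have h9 : v i * (z * (t i : ℝ) - 1) =
      ∑ a, v a * ((G a i - (1 : Matrix (Fin n) (Fin n) ℝ) a i : ℝ) : ℂ) := by
    rw [mul_sub, h8 i, mul_one]
    have e : ∀ a, v a * ((G a i - (1 : Matrix (Fin n) (Fin n) ℝ) a i : ℝ) : ℂ) =
        v a * Gc a i - v a * (((1 : Matrix (Fin n) (Fin n) ℝ) a i : ℝ) : ℂ) := by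
      intro a
      rw [hGc, Matrix.map_apply]
      push_cast
      simp [mul_sub]
    simp_rw [e]
    rw [Finset.sum_sub_distrib]
    congr 1
    rw [Finset.sum_eq_single i]
    · simp
    · intro b _ hb
      simp [Matrix.one_apply_ne hb]
    · intro hi
      exact absurd (Finset.mem_univ i) hi
  have h10 : ‖v i‖ * ‖z * (t i : ℝ) - 1‖ ≤ ‖v i‖ * (n * ε) := by
    rw [← norm_mul, h9]
    refine (norm_sum_le _ _).trans ?_
    have : ∑ a : Fin n, ‖v a * ((G a i - (1 : Matrix (Fin n) (Fin n) ℝ) a i : ℝ) : ℂ)‖ ≤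
        ∑ _a : Fin n, ‖v i‖ * ε := by
      refine Finset.sum_le_sum (fun a _ => ?_)
      rw [norm_mul, Complex.norm_real, Real.norm_eq_abs]
      exact mul_le_mul (hi a) (hG a i) (abs_nonneg _) (norm_nonneg _)
    refine this.trans (le_of_eq ?_)
    rw [Finset.sum_const, Finset.card_univ, Fintype.card_fin, nsmul_eq_mul]
    ring
  have h11 : ‖z * (t i : ℝ) - 1‖ ≤ n * ε := le_of_mul_le_mul_left h10 hpos
  refine le_trans ?_ h11
  have h12 := abs_norm_sub_norm_le (z * (t i : ℝ)) 1
  rw [norm_mul, Complex.norm_real, Real.norm_eq_abs, abs_of_pos (ht i), norm_one] at h12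
  exact h12

private theorem irr_cnt {n : ℕ} (S : Multiset ℂ) (f : ℂ → Fin n) (w : Fin n → ℤ) :
    ∑ a, (S.countP (fun z => f z = a) : ℤ) * w a = (S.map fun z => w (f z)).sum := by
  induction S using Multiset.induction_on with
  | empty => simp
  | cons x S ih =>
    simp only [Multiset.map_cons, Multiset.sum_cons, Multiset.countP_cons]
    rw [← ih]
    have h1 : ∀ a : Fin n, (((S.countP (fun z => f z = a) + if f x = a then 1 else 0 : ℕ)) : ℤ) *
        w a = (S.countP (fun z => f z = a) : ℤ) * w a + if f x = a then w a else 0 := by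
      intro a
      split_ifs <;> push_cast <;> ring
    simp only [h1]
    rw [Finset.sum_add_distrib, Finset.sum_ite_eq, if_pos (Finset.mem_univ _), add_comm]

theorem irr_wt {n : ℕ} (C : Finset (Fin n)) (hC : C.Nonempty) (hC' : Cᶜ.Nonempty) :
    ∃ ε : ℝ, 0 < ε ∧ ∀ (X : Fin n → Fin n → ℝ), (Matrix.of X).det ≠ 0 →
      ∀ (G : Matrix (Fin n) (Fin n) ℝ) (r : ℕ) (M : Matrix (Fin n) (Fin n) ℤ),
      (∀ a b, |G a b - (1 : Matrix (Fin n) (Fin n) ℝ) a b| < ε) → 1 ≤ r → Uni M →
      ac G X = tr X M (wx C r) → Irreducible (M.map (Int.castRingHom ℚ)).charpoly := by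
  classical
  have hp : 1 ≤ C.card := hC.card_pos
  have hq : 1 ≤ Cᶜ.card := hC'.card_pos
  have hpq : C.card + Cᶜ.card = n := by
    rw [Finset.card_add_card_compl, Fintype.card_fin]
  have hn : 2 ≤ n := by omega
  have hnR : (2 : ℝ) ≤ n := by exact_mod_cast hn
  obtain ⟨c0, hc0⟩ := hC
  refine ⟨1 / (8 * n ^ 2), by positivity, ?_⟩
  intro X hX G r M hG hr hM hac
  set ε : ℝ := 1 / (8 * n ^ 2) with hε
  set η : ℝ := n * ε with hη
  have hη0 : 0 ≤ η := by positivity
  have hη1 : n * (2 * η) ≤ 1 / 4 := by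
    rw [hη, hε]
    have : (n : ℝ) ≠ 0 := by positivity
    field_simp
    norm_num
  have hη2 : 2 * η ≤ 1 / 8 := by nlinarith
  have hrR : (1 : ℝ) ≤ r := by exact_mod_cast hr
  set lab : ℂ → Fin n := fun z =>
    if h : ∃ b, |‖z‖ * wx C r b - 1| ≤ η then h.choose else c0 with hlab
  set c : ℂ → ℤ := fun z => - wt C (lab z) with hc
  have key : ∀ z : ℂ, (M.charpoly.map (Int.castRingHom ℂ)).IsRoot z →
      z ≠ 0 ∧ |Real.log ‖z‖ - r * c z| ≤ 2 * η := by
    intro z hz
    have hex : ∃ b, |‖z‖ * wx C r b - 1| ≤ η :=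
      irr_root_t hX (fun b => wx_pos C r b) (fun a b => (hG a b).le) hac hz
    have hl : lab z = hex.choose := by
      simp only [hlab]
      rw [dif_pos hex]
    have hb := hex.choose_spec
    rw [← hl] at hb
    have hz0 : z ≠ 0 := by
      rintro rfl
      simp at hb
      linarith
    refine ⟨hz0, ?_⟩
    unfold wx at hb
    have h1 := irr_log hη0 (by linarith) (norm_nonneg z) hb
    have e : Real.log ‖z‖ - r * ((c z : ℤ) : ℝ) =
        Real.log ‖z‖ + r * ((wt C (lab z) : ℤ) : ℝ) := by
      simp only [hc]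
      push_cast
      ring
    rw [e]
    exact h1
  have main : ∀ g : ℤ[X], g.Monic → g ∣ M.charpoly → IsUnit (g.coeff 0) →
      g.natDegree = 0 ∨ g.natDegree = n := by
    intro g hg hdvd hu
    set S : Multiset ℂ := (g.map (Int.castRingHom ℂ)).roots with hS
    have hcard : Multiset.card S = g.natDegree := by
      rw [hS, (splits_iff_card_roots.1 (IsAlgClosed.splits _)), hg.natDegree_map]
    have hroot : ∀ z ∈ S, z ≠ 0 ∧ |Real.log ‖z‖ - r * c z| ≤ 2 * η := by
      intro z hz
      exact key z ((isRoot_of_mem_roots hz).dvd (Polynomial.map_dvd _ hdvd))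
    have hdeg : g.natDegree ≤ n := by
      have := natDegree_le_of_dvd hdvd M.charpoly_monic.ne_zero
      rwa [Matrix.charpoly_natDegree_eq_dim, Fintype.card_fin] at this
    have hprod : ‖S.prod‖ = 1 := by
      have h1 := (IsAlgClosed.splits (g.map (Int.castRingHom ℂ))).coeff_zero_eq_prod_roots_of_monic
        (hg.map _)
      rw [coeff_map] at h1
      have h2 := congrArg norm h1
      rw [norm_mul, norm_pow, norm_neg, norm_one, one_pow, one_mul] at h2
      rw [← hS] at h2
      rw [← h2]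
      rcases Int.isUnit_iff.1 hu with h | h <;> rw [h] <;> simp
    have h1 := irr_sum S c r fun z hz => (hroot z hz).2
    rw [irr_log_prod S fun z hz => (hroot z hz).1, hprod, Real.log_one, zero_sub, abs_neg] at h1
    have h2 : (S.map c).sum = 0 := by
      have h3 : |(r : ℝ) * ((S.map c).sum : ℤ)| < 1 := by
        refine lt_of_le_of_lt h1 ?_
        rw [hcard]
        have : (g.natDegree : ℝ) ≤ n := by exact_mod_cast hdeg
        nlinarith
      by_contra h0
      have h4 : (1 : ℝ) ≤ |(((S.map c).sum : ℤ) : ℝ)| := by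
        have := Int.one_le_abs h0
        exact_mod_cast this
      rw [abs_mul, abs_of_pos (by linarith : (0 : ℝ) < r)] at h3
      nlinarith
    have h5 := irr_cnt S lab (wt C)
    have h6 := irr_cnt S lab (fun _ => (1 : ℤ))
    have h7 : (S.map fun z => wt C (lab z)).sum = 0 := by
      have h8 : (S.map c).sum = - (S.map fun z => wt C (lab z)).sum := by
        rw [hc]
        exact Multiset.sum_map_neg
      rw [h8] at h2
      linarith
    rw [h7] at h5
    have h9 : ∑ a, S.countP (fun z => lab z = a) = g.natDegree := by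
      have h10 : (S.map fun _ => (1 : ℤ)).sum = (Multiset.card S : ℤ) := by
        rw [Multiset.map_const', Multiset.sum_replicate]
        simp
      rw [h10, hcard] at h6
      simp only [mul_one] at h6
      exact_mod_cast h6
    have h11 := wt_count C ⟨c0, hc0⟩ hC' (fun a => S.countP (fun z => lab z = a))
      (by rw [h9]; exact hdeg) h5
    rw [h9] at h11
    exact h11
  have hmap : (M.map (Int.castRingHom ℚ)).charpoly = M.charpoly.map (algebraMap ℤ ℚ) := by
    rw [Matrix.charpoly_map]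
    rfl
  rw [hmap, ← M.charpoly_monic.irreducible_iff_irreducible_map_fraction_map]
  have hdegM : M.charpoly.natDegree = n := by
    rw [Matrix.charpoly_natDegree_eq_dim, Fintype.card_fin]
  rw [M.charpoly_monic.irreducible_iff_natDegree']
  refine ⟨?_, ?_⟩
  · intro h1
    rw [h1, natDegree_one] at hdegM
    omega
  · intro f g hf hg hfg hmem
    rw [Finset.mem_Ioc, hdegM] at hmem
    have hu : IsUnit (g.coeff 0) := by
      have h1 : f.coeff 0 * g.coeff 0 = M.charpoly.coeff 0 := by
        rw [← hfg, mul_coeff_zero]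
      have h2 : IsUnit (M.charpoly.coeff 0) := by
        have h3 := Matrix.det_eq_sign_charpoly_coeff M
        have h4 : IsUnit M.det := by
          rcases hM with h | h <;> rw [h] <;> simp
        rw [h3] at h4
        exact isUnit_of_mul_isUnit_right h4
      rw [← h1] at h2
      exact isUnit_of_mul_isUnit_right h2
    rcases main g hg ⟨f, by rw [← hfg]; ring⟩ hu with h | h <;> omega

end Pool.Agent.Work.MP_77d073_nt.Blk
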