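import Pool.Agent.Work.MP_77d073_nt.Blk.LimA

set_option autoImplicit false

/-!
# Blk/LimC (M): an eigenvalue vector from a unit

eig_unit: `D, m` as in LimB (`exists_den_family`, `exists_pow_congr_all`), `u` the unit of `γ` (`hγ.2`), `v = u ^ (2 m)`, norm 1,
`v ≡ 1 mod D`; `mul_matrix` with `t = 1`: `A`, `coef b (tr y A 1) i σ = σ v * coef b y i σ`, `σ v = exp (2 m γ σ)`. For every i some
`coef b y i σ ≠ 0` (`coef_li`, `ne_zero`); by hc the number `lam i = σ v` does not depend on such a σ, so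
`coef b (tr y A 1) i σ = lam i * coef b y i σ` for all σ; `coef_sum` with `ξ = b j`: `(tr y A 1 i j : ℂ) = lam i * (y i j : ℂ)`
for all j. As `y i ≠ 0` (hy.ne_zero) some `y i j ≠ 0`, so `lam i` is real, `β i = (lam i).re`. `Eig y β` with the matrix `A`; `|β i| = ‖lam i‖ =
exp (2 m (γ σ).re)` (`Complex.norm_exp`). Use `2 * m` as the `m` of the statement.
-/

namespace Pool.Agent.Work.MP_77d073_nt.Blk

open NumberField NumberField.Units Module Filter Topology
open Pool.Agent.Work.MP_77d073_nt Pool.Agent.Work.MP_77d073_nt.Root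

section lim

variable {K : Type*} [Field K] [NumberField K] {n : ℕ}

/-- An eigenvector vector from a unit: if every form of `y` has its coefficients on embeddings
on which the logarithm `γ` of a unit is constant, then the multiplication by a power of the unit
acts on the forms by scalars. -/
theorem eig_unit (hn : 1 ≤ n) (b : Basis (Fin n) ℚ K) {y : Fin n → Fin n → ℝ}
    (hy : LinearIndependent ℝ y) {γ : (K →+* ℂ) → ℂ} (hγ : γ ∈ Gam K)
    (hc : ∀ i σ τ, coef b y i σ ≠ 0 → coef b y i τ ≠ 0 → γ σ = γ τ) :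
    ∃ (m : ℕ) (β : Fin n → ℝ), 0 < m ∧ Eig y β ∧
      ∀ i σ, coef b y i σ ≠ 0 → |β i| = Real.exp (m * (γ σ).re) := by
  classical
  obtain ⟨D, hD, hDz⟩ := exists_den_family (fun p : Fin n × Fin n =>
    ((b.coord p.1 : K →ₗ[ℚ] ℚ) ∘ₗ (LinearMap.mulRight ℚ (b p.2))))
  obtain ⟨m, hm, hmu⟩ := exists_pow_congr_all K hD
  obtain ⟨hγ0, u, hu⟩ := hγ
  set v : K := (u : K) ^ (2 * m) with hv
  have hsv : ∀ σ : K →+* ℂ, σ v = Complex.exp ((2 * m : ℕ) * γ σ) := by
    intro σ
    rw [hv, map_pow, ← hu σ, ← Complex.exp_nat_mul]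
  have hnorm : Algebra.norm ℚ v = 1 := by
    have h1 := NumberField.Units.norm K u
    rw [hv, map_pow, pow_mul]
    have h2 : (Algebra.norm ℚ (u : K)) ^ 2 = 1 := by
      rw [← sq_abs, h1, one_pow]
    rw [h2, one_pow]
  obtain ⟨a, ha⟩ := hmu (u ^ 2)
  have ha' : v = 1 + (D : K) * (a : K) := by
    rw [← ha, hv, pow_mul]
    simp
  obtain ⟨A, hAdet, hA⟩ := mul_matrix b hDz ha' hnorm
  have hex : ∀ i, ∃ σ : K →+* ℂ, coef b y i σ ≠ 0 := by
    intro i
    have h1 := (coef_li b hy).ne_zero i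
    exact Function.ne_iff.mp h1
  choose s hs using hex
  have hlam : ∀ i σ, coef b y i σ ≠ 0 → σ v = (s i) v := by
    intro i σ hσ
    rw [hsv, hsv, hc i σ (s i) hσ (hs i)]
  have hco : ∀ i σ, coef b (tr y A (fun _ => 1)) i σ = (s i) v * coef b y i σ := by
    intro i σ
    rw [hA y (fun _ => 1) i σ]
    by_cases h : coef b y i σ = 0
    · rw [h]; simp
    · rw [hlam i σ h]; simp
  have hval : ∀ (L : Fin n → Fin n → ℝ) (i j : Fin n),
      ∑ σ : K →+* ℂ, coef b L i σ * σ (b j) = (L i j : ℂ) := by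
    intro L i j
    rw [coef_sum, Finset.sum_eq_single j]
    · simp
    · intro k _ hk
      rw [b.repr_self, Finsupp.single_apply, if_neg (Ne.symm hk)]
      simp
    · simp
  have hent : ∀ i j, ((tr y A (fun _ => 1) i j : ℝ) : ℂ) = (s i) v * (y i j : ℂ) := by
    intro i j
    rw [← hval (tr y A (fun _ => 1)) i j, ← hval y i j, Finset.mul_sum]
    refine Finset.sum_congr rfl fun σ _ => ?_
    rw [hco, mul_assoc]
  have hreal : ∀ i, ((((s i) v).re : ℝ) : ℂ) = (s i) v := by
    intro i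
    have hy0 := hy.ne_zero i
    obtain ⟨j, hj⟩ := Function.ne_iff.mp hy0
    have hj' : (y i j : ℂ) ≠ 0 := by
      intro h
      exact hj (by exact_mod_cast h)
    have h1 : (s i) v = ((tr y A (fun _ => 1) i j / y i j : ℝ) : ℂ) := by
      rw [Complex.ofReal_div, hent i j, mul_div_assoc, div_self hj', mul_one]
    rw [h1, Complex.ofReal_re]
  refine ⟨2 * m, fun i => ((s i) v).re, by omega, ⟨A, ?_⟩, ?_⟩
  · intro i j
    have h1 := hent i j
    rw [← hreal i, ← Complex.ofReal_mul] at h1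
    have h2 : tr y A (fun _ => 1) i j = ((s i) v).re * y i j := by exact_mod_cast h1
    rw [← h2]
    unfold tr
    rw [one_mul]
  · intro i σ hσ
    have h1 : |((s i) v).re| = ‖(s i) v‖ := by
      conv_rhs => rw [← hreal i]
      rw [Complex.norm_real, Real.norm_eq_abs]
    change |((s i) v).re| = _
    rw [h1, ← hlam i σ hσ, hsv, Complex.norm_exp]
    congr 1
    rw [← Complex.ofReal_natCast, Complex.re_ofReal_mul]

end lim

end Pool.Agent.Work.MP_77d073_nt.Blk
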