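import Pool.Agent.Work.MP_77d073_nt.Blk.LimB
import Pool.Agent.Work.MP_77d073_nt.Blk.LimC
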