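import Pool.Agent.Work.MP_77d073_nt.Blk.Defs
import Pool.Agent.Work.MP_77d073_nt.Wall.Act

set_option autoImplicit false

/-!
# Blk/LimA (S-M): multiplication by a number congruent to 1 modulo D is an integer matrix

mul_matrix: the first part of the proof of `matrix_of_congr` (Wall/Act.lean): `A j k = (if j = k then 1 else 0) + z (j, k)`,
`(A j k : ℚ) = b.repr (v * b k) j`, `A.map = leftMulMatrix b v`, `det A = norm v = 1`. So `∑ j, (A j k : K) * b j = v * b k`
(`Basis.sum_repr`), and `coef_mul` (Field.lean) applies to the rational matrix `A` with `θ = v`: the coefficients of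
`i, k ↦ ∑ j, L i j * A j k` are `σ v * coef b L i σ`; the factor `t i` comes out of the sum (`coef` is linear in the form).
-/

namespace Pool.Agent.Work.MP_77d073_nt.Blk

open NumberField NumberField.Units Module Filter Topology
open Pool.Agent.Work.MP_77d073_nt Pool.Agent.Work.MP_77d073_nt.Root

section lim

variable {K : Type*} [Field K] [NumberField K] {n : ℕ}

/-- Multiplication by a number `v ≡ 1 (mod D)` of norm one is an integer matrix. -/
theorem mul_matrix (b : Basis (Fin n) ℚ K) {D : ℕ}
    (hDz : ∀ a : 𝓞 K, ∀ p : Fin n × Fin n, ∃ z : ℤ,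
      (D : ℚ) * ((b.coord p.1 : K →ₗ[ℚ] ℚ) ∘ₗ (LinearMap.mulRight ℚ (b p.2))) (a : K) = z)
    {v : K} {a : 𝓞 K} (ha : v = 1 + (D : K) * (a : K)) (hnorm : Algebra.norm ℚ v = 1) :
    ∃ A : Matrix (Fin n) (Fin n) ℤ, A.det = 1 ∧
      ∀ (L : Fin n → Fin n → ℝ) (t : Fin n → ℝ) (i : Fin n) (σ : K →+* ℂ),
        coef b (tr L A t) i σ = (t i : ℂ) * (σ v * coef b L i σ) := by
  classical
  choose z hz using hDz a
  set A : Matrix (Fin n) (Fin n) ℤ := fun j k => (if j = k then 1 else 0) + z (j, k) with hA
  have hAv : ∀ j k, (A j k : ℚ) = b.repr (v * b k) j := by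
    intro j k
    rw [ha, add_mul, one_mul, map_add, Finsupp.add_apply]
    have h1 := hz (j, k)
    simp only [LinearMap.comp_apply, LinearMap.mulRight_apply, Basis.coord_apply] at h1
    have h2 : (D : K) * (a : K) * b k = (D : ℚ) • ((a : K) * b k) := by
      rw [Rat.smul_def, mul_assoc]; simp
    rw [h2, map_smul, Finsupp.smul_apply, smul_eq_mul, h1, b.repr_self, Finsupp.single_apply]
    simp only [hA]
    push_cast
    by_cases hjk : j = k
    · simp [hjk]
    · simp [hjk, Ne.symm hjk]
  have hAmap : A.map (Int.castRingHom ℚ) = Algebra.leftMulMatrix b v := by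
    ext j k
    rw [Algebra.leftMulMatrix_eq_repr_mul, ← hAv]
    simp
  have hdet : A.det = 1 := by
    have h1 : ((A.det : ℤ) : ℚ) = Algebra.norm ℚ v := by
      rw [Algebra.norm_eq_matrix_det b v, ← hAmap]
      exact RingHom.map_det (Int.castRingHom ℚ) A
    rw [hnorm] at h1
    exact_mod_cast h1
  refine ⟨A, hdet, ?_⟩
  intro L t i σ
  have hb : ∀ k, ∑ j, (((A.map (Int.cast : ℤ → ℚ)) j k : ℚ) : K) * b j = v * b k := by
    intro k
    rw [← b.sum_repr (v * b k)]
    refine Finset.sum_congr rfl fun j _ => ?_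
    rw [Matrix.map_apply, hAv, Rat.smul_def]
  rw [← coef_mul hb L i σ]
  unfold coef tr
  rw [Finset.mul_sum]
  refine Finset.sum_congr rfl fun j _ => ?_
  simp only [Matrix.map_apply]
  push_cast
  ring

end lim

end Pool.Agent.Work.MP_77d073_nt.Blk
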