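import Pool.Agent.Work.MP_77d073_nt.Blk.LimA

set_option autoImplicit false

/-!
# Blk/LimB (M-L): limits under units

lim_unit: `D` as in `auto_ratio` (Wall/Act.lean; `exists_den_family`), `m` from `exists_pow_congr_all`. `Gam_cobounded K`
gives `R`. For every natural number k apply Flow.recur with `Γ = Gam K`, `T = TZ K`, the vector `x`, `ε = 1 / ((k + 1) * (2 m))`, `N = k`: `s ≥ k`
and `γ ∈ Gam K` with `‖s • x - γ‖ < ε`; `exp (γ σ) = σ u` for a unit `u` (`hγ.2`). Put `v = u ^ (2 m)`: `σ v = exp (2 m γ σ)`,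
`2 m γ σ - 2 m s x σ → 0`, the norm of `v` is 1 (as in `auto_ratio`), `v ≡ 1 mod D` (`hmu (u ^ 2)`), so `mul_matrix` gives `A` (`det = 1`) with
`coef b (tr z A t) i σ = t i * (σ v * coef b z i σ)` for `t i = exp (- a i * (2 m s))`, `∏ t = 1` (ha).
For `coef b z i σ ≠ 0`: `x σ ≤ a i`, so `t i * σ v` tends to 1 if `x σ = a i` and to 0 if `x σ < a i` (as in the proof of
`limit_lemma`, Limit.lean). So all `coef b (tr z A_k t_k) i σ` converge to `g i σ := if x σ = a i then coef b z i σ else 0`; `coef_sum`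
(Trans.lean) with `ξ = b j` gives `(tr z A_k t_k i j : ℂ) = ∑ σ, coef .. * σ (b j)` (`b.repr (b j)` is the unit vector), which converges to
`∑ σ, g i σ * σ (b j)`; its real part is `y i j` (real parts converge). `y ∈ closure (orb z)` (`mem_closure_of_tendsto`, `tendsto_pi_nhds`) and
`coef b y i σ = g i σ` by `coef_tendsto` (Rigid.lean) and uniqueness of limits.
-/

namespace Pool.Agent.Work.MP_77d073_nt.Blk

open NumberField NumberField.Units Module Filter Topology
open Pool.Agent.Work.MP_77d073_nt Pool.Agent.Work.MP_77d073_nt.Root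

section lim

variable {K : Type*} [Field K] [NumberField K] {n : ℕ}

theorem lim_unit (b : Basis (Fin n) ℚ K) (z : Fin n → Fin n → ℝ)
    (x : (K →+* ℂ) → ℝ) (hxT : (fun σ => (x σ : ℂ)) ∈ TZ K) (a : Fin n → ℝ) (ha : ∑ i, a i = 0)
    (hle : ∀ i σ, coef b z i σ ≠ 0 → x σ ≤ a i) :
    ∃ y ∈ closure (orb z), ∀ i σ, coef b y i σ = if x σ = a i then coef b z i σ else 0 := by
  classical
  obtain ⟨D, hD, hDz⟩ := exists_den_family (fun p : Fin n × Fin n =>
    ((b.coord p.1 : K →ₗ[ℚ] ℚ) ∘ₗ (LinearMap.mulRight ℚ (b p.2))))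
  obtain ⟨m, hm, hmu⟩ := exists_pow_congr_all K hD
  obtain ⟨R, -, hcob⟩ := Gam_cobounded K
  have hmR : (0 : ℝ) < m := by exact_mod_cast hm
  have h1 : ∀ k : ℕ, ∃ s : ℝ, (k : ℝ) ≤ s ∧ ∃ γ ∈ Gam K,
      ‖s • (fun σ => (x σ : ℂ)) - γ‖ < 1 / ((k : ℝ) + 1) :=
    fun k => recur (Gam K) (TZ K) hcob hxT (by positivity) k
  choose s hs γ hγ hγv using h1
  have hunit : ∀ k, ∃ u : (𝓞 K)ˣ, ∀ σ : K →+* ℂ, Complex.exp (γ k σ) = σ (u : K) :=
    fun k => (hγ k).2
  choose u hu using hunit
  obtain ⟨w, hw⟩ : ∃ w : ℕ → (K →+* ℂ) → ℂ, w = fun k => s k • (fun σ => (x σ : ℂ)) - γ k :=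
    ⟨_, rfl⟩
  have hwlim : ∀ σ, Tendsto (fun k => w k σ) atTop (𝓝 0) := by
    intro σ
    rw [tendsto_zero_iff_norm_tendsto_zero]
    refine squeeze_zero (fun k => norm_nonneg _) (fun k => ?_)
      tendsto_one_div_add_atTop_nhds_zero_nat
    rw [hw]
    exact (norm_le_pi_norm (s k • (fun σ => (x σ : ℂ)) - γ k) σ).trans (hγv k).le
  have hslim : Tendsto s atTop atTop := tendsto_atTop_mono hs tendsto_natCast_atTop_atTop
  have hmat : ∀ k, ∃ A : Matrix (Fin n) (Fin n) ℤ, A.det = 1 ∧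
      ∀ (L : Fin n → Fin n → ℝ) (t : Fin n → ℝ) (i : Fin n) (σ : K →+* ℂ),
        coef b (tr L A t) i σ = (t i : ℂ) * (σ ((u k : K) ^ (2 * m)) * coef b L i σ) := by
    intro k
    have hnorm : Algebra.norm ℚ ((u k : K) ^ (2 * m)) = 1 := by
      have h1 := NumberField.Units.norm K (u k)
      rw [map_pow, pow_mul]
      have h2 : (Algebra.norm ℚ (u k : K)) ^ 2 = 1 := by
        rw [← sq_abs, h1, one_pow]
      rw [h2, one_pow]
    obtain ⟨c, hc⟩ := hmu (u k ^ 2)
    have hc' : (u k : K) ^ (2 * m) = 1 + (D : K) * (c : K) := by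
      rw [← hc, pow_mul]
      simp
    exact mul_matrix b hDz hc' hnorm
  choose A hAdet hA using hmat
  obtain ⟨t, ht⟩ : ∃ t : ℕ → Fin n → ℝ, t = fun k i => Real.exp (-(a i * (2 * m * s k))) :=
    ⟨_, rfl⟩
  have htprod : ∀ k, ∏ i, t k i = 1 := by
    intro k
    rw [ht]
    beta_reduce
    rw [← Real.exp_sum, Finset.sum_neg_distrib, ← Finset.sum_mul, ha, zero_mul, neg_zero,
      Real.exp_zero]
  obtain ⟨g, hg⟩ : ∃ g : Fin n → (K →+* ℂ) → ℂ,
      g = fun i σ => if x σ = a i then coef b z i σ else 0 := ⟨_, rfl⟩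
  have hfac : ∀ k i σ, (t k i : ℂ) * σ ((u k : K) ^ (2 * m)) =
      Complex.exp (((2 * m * s k * (x σ - a i) : ℝ) : ℂ) - 2 * m * w k σ) := by
    intro k i σ
    rw [map_pow, ← hu k σ, ← Complex.exp_nat_mul, ht]
    beta_reduce
    rw [Complex.ofReal_exp, ← Complex.exp_add]
    congr 1
    rw [hw]
    simp only [Pi.sub_apply, Pi.smul_apply, Complex.real_smul]
    push_cast
    ring
  have hclim : ∀ i σ, Tendsto (fun k => coef b (tr z (A k) (t k)) i σ) atTop (𝓝 (g i σ)) := by
    intro i σ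
    have e1 : (fun k => coef b (tr z (A k) (t k)) i σ) = fun k =>
        Complex.exp (((2 * m * s k * (x σ - a i) : ℝ) : ℂ) - 2 * m * w k σ) * coef b z i σ := by
      funext k
      rw [hA, ← mul_assoc, hfac]
    rw [e1, hg]
    beta_reduce
    by_cases hh : coef b z i σ = 0
    · simp [hh]
    have hw0 : Tendsto (fun k => (2 * (m : ℂ)) * w k σ) atTop (𝓝 0) := by
      simpa using (hwlim σ).const_mul (2 * (m : ℂ))
    by_cases hx : x σ = a i
    · rw [if_pos hx]
      have h7 : (fun k => Complex.exp (((2 * m * s k * (x σ - a i) : ℝ) : ℂ) - 2 * m * w k σ) *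
          coef b z i σ) = fun k => Complex.exp (-(2 * m * w k σ)) * coef b z i σ := by
        funext k
        rw [hx]; simp
      rw [h7]
      have h8 : Tendsto (fun k => Complex.exp (-(2 * m * w k σ))) atTop (𝓝 (Complex.exp (-0))) :=
        (Complex.continuous_exp.tendsto _).comp hw0.neg
      have h9 := h8.mul_const (coef b z i σ)
      simpa using h9
    · rw [if_neg hx]
      have hlt : x σ - a i < 0 := by
        have := lt_of_le_of_ne (hle i σ hh) hx
        linarith
      rw [tendsto_zero_iff_norm_tendsto_zero]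
      have h8 : (fun k => ‖Complex.exp (((2 * m * s k * (x σ - a i) : ℝ) : ℂ) - 2 * m * w k σ) *
          coef b z i σ‖) = fun k => (Real.exp (2 * m * (x σ - a i) * s k) *
            Real.exp (-(2 * (m : ℂ) * w k σ).re)) * ‖coef b z i σ‖ := by
        funext k
        rw [norm_mul, Complex.norm_exp, Complex.sub_re, Complex.ofReal_re, sub_eq_add_neg,
          Real.exp_add]
        congr 3
        ring
      rw [h8]
      have h9 : Tendsto (fun k => Real.exp (-(2 * (m : ℂ) * w k σ).re)) atTop (𝓝 (Real.exp (-0))) :=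
        (Real.continuous_exp.tendsto _).comp (((Complex.continuous_re.tendsto _).comp hw0).neg)
      have h11 : Tendsto (fun k => Real.exp (2 * m * (x σ - a i) * s k)) atTop (𝓝 0) := by
        refine Real.tendsto_exp_atBot.comp ?_
        refine hslim.const_mul_atTop_of_neg ?_
        exact mul_neg_of_pos_of_neg (by linarith) hlt
      have h12 := (h11.mul h9).mul_const ‖coef b z i σ‖
      simpa using h12
  obtain ⟨y, hy⟩ : ∃ y : Fin n → Fin n → ℝ, y = fun i j => (∑ σ : K →+* ℂ, g i σ * σ (b j)).re :=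
    ⟨_, rfl⟩
  have hcj : ∀ (L : Fin n → Fin n → ℝ) (i j : Fin n),
      ∑ σ : K →+* ℂ, coef b L i σ * σ (b j) = (L i j : ℂ) := by
    intro L i j
    rw [coef_sum, Finset.sum_eq_single j]
    · simp
    · intro l _ hl
      rw [b.repr_self, Finsupp.single_apply, if_neg (Ne.symm hl)]
      simp
    · simp
  have hlim : ∀ i j, Tendsto (fun k => tr z (A k) (t k) i j) atTop (𝓝 (y i j)) := by
    intro i j
    have h1 : Tendsto (fun k => ∑ σ : K →+* ℂ, coef b (tr z (A k) (t k)) i σ * σ (b j)) atTop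
        (𝓝 (∑ σ : K →+* ℂ, g i σ * σ (b j))) :=
      tendsto_finsetSum _ fun σ _ => (hclim i σ).mul_const _
    have h2 := (Complex.continuous_re.tendsto _).comp h1
    have h3 : (Complex.re ∘ fun k => ∑ σ : K →+* ℂ, coef b (tr z (A k) (t k)) i σ * σ (b j)) =
        fun k => tr z (A k) (t k) i j := by
      funext k
      rw [Function.comp_apply, hcj, Complex.ofReal_re]
    rw [h3] at h2
    rw [hy]
    exact h2
  refine ⟨y, ?_, ?_⟩
  · refine mem_closure_of_tendsto (f := fun k => tr z (A k) (t k)) (b := atTop) ?_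
      (Eventually.of_forall fun k => ⟨A k, t k, Or.inl (hAdet k), htprod k, rfl⟩)
    exact tendsto_pi_nhds.mpr fun i => tendsto_pi_nhds.mpr fun j => hlim i j
  · intro i σ
    have h1 := tendsto_nhds_unique (coef_tendsto b hlim i σ) (hclim i σ)
    rw [h1, hg]

end lim

end Pool.Agent.Work.MP_77d073_nt.Blk
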