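import Pool.Agent.Work.MP_77d073_nt.Blk.PerA

set_option autoImplicit false

/-!
# Blk/PerC (M): no elementary change between different classes

no_cross: `y, y' ∈ X`, `y' = ac (1 + N) y`, `N` supported in `C × Cᶜ`. For `β` with `Eig y₀ β` there are integer matrices `B, B'` with
`y B = diag β y`, `y' B' = diag β y'` (hX.eig). As matrices, with `Y = of y` (invertible: `hX.good.ne hX.Dpos hy`), `of y' = (1 + N) Y` (`rec_ac_eq`,
RootRec.lean): `(1 + N)⁻¹ = 1 - N` (`N * N = 0`), so `Y B' = (1 - N) diag β (1 + N) Y` and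
`Y (B' - B) = ((1 - N) diag β (1 + N) - diag β) Y = (diag β N - N diag β) Y` (`N * diag β * N = 0`). Row `a` of the right side is
zero for `a ∉ C`. For an integer vector `p` put `q = (B' - B) p`: `∑ l, y a l * q l = 0` for the `a ∉ C` (exists, hC'), so the product over a is 0,
so `q = 0` (`hX.good.low`, `hX.cpos`). So `B' = B` (unit vectors p), `(diag β N - N diag β) Y = 0`, `diag β N = N diag β`, entry
`(a, b)`: `(β a - β b) * N a b = 0`. If `N a b ≠ 0` then `β a = β b` for all such β: `Rl y₀ a b`.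
-/

namespace Pool.Agent.Work.MP_77d073_nt.Blk

open Filter Topology
open Pool.Agent.Work.MP_77d073_nt Pool.Agent.Work.MP_77d073_nt.Root

theorem no_cross {n : ℕ} {c D : ℝ} {y₀ : Fin n → Fin n → ℝ} {X : Set (Fin n → Fin n → ℝ)}
    (hX : Bs c D y₀ X) (C : Finset (Fin n)) (hC' : Cᶜ.Nonempty) {N : Matrix (Fin n) (Fin n) ℝ}
    (hN : ∀ a b, N a b ≠ 0 → a ∈ C ∧ b ∉ C) {y : Fin n → Fin n → ℝ} (hy : y ∈ X)
    (hNy : ac (1 + N) y ∈ X) {a b : Fin n} (hab : N a b ≠ 0) : Rl y₀ a b := by
  intro β hβ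
  obtain ⟨B, hB⟩ := hX.eig y hy β hβ
  obtain ⟨B', hB'⟩ := hX.eig _ hNy β hβ
  have hrow : ∀ a, a ∉ C → ∀ b, ac (1 + N) y a b = y a b := by
    intro a ha b
    have h1 : ∀ c, (1 + N) a c = (1 : Matrix (Fin n) (Fin n) ℝ) a c := by
      intro c
      by_contra h
      have h2 : N a c ≠ 0 := fun h0 => h (by rw [Matrix.add_apply, h0, add_zero])
      exact ha (hN a c h2).1
    simp only [ac, h1, Matrix.one_apply]
    simp
  have hBB : B' = B := by
    ext l b
    have hq : (fun l => B' l b - B l b) = 0 := by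
      by_contra hq
      have h1 := hX.good.low y hy _ hq
      obtain ⟨a, ha⟩ := hC'
      have h2 : ∑ l, y a l * ((B' l b - B l b : ℤ) : ℝ) = 0 := by
        have e1 := hB a b
        have e2 := hB' a b
        simp only [hrow a (Finset.mem_compl.1 ha)] at e2
        simp only [Int.cast_sub, mul_sub, Finset.sum_sub_distrib]
        rw [e1, e2, sub_self]
      rw [Finset.prod_eq_zero (Finset.mem_univ a) h2, abs_zero] at h1
      exact absurd h1 (not_le.2 hX.cpos)
    exact sub_eq_zero.1 (congrFun hq l)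
  subst hBB
  set Y := Matrix.of y with hY
  have hYd : IsUnit Y.det := isUnit_iff_ne_zero.2 (hX.good.ne hX.Dpos hy)
  have e1 : Y * B'.map (fun z : ℤ => (z : ℝ)) = Matrix.diagonal β * Y := by
    ext a b
    rw [Matrix.mul_apply, Matrix.diagonal_mul]
    exact hB a b
  have e2 : (1 + N) * Y * B'.map (fun z : ℤ => (z : ℝ)) = Matrix.diagonal β * ((1 + N) * Y) := by
    have h1 : Matrix.of (ac (1 + N) y) = (1 + N) * Y := by
      ext a b
      rw [Matrix.mul_apply]
      rfl
    rw [← h1]
    ext a b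
    rw [Matrix.mul_apply, Matrix.diagonal_mul]
    exact hB' a b
  rw [Matrix.mul_assoc, e1, Matrix.add_mul, Matrix.one_mul, Matrix.add_mul, Matrix.one_mul,
    Matrix.mul_add] at e2
  have e3 := add_left_cancel e2
  rw [← Matrix.mul_assoc, ← Matrix.mul_assoc] at e3
  have e4 : N * Matrix.diagonal β = Matrix.diagonal β * N := by
    have h1 := congrArg (fun M => M * Y⁻¹) e3
    simp only [Matrix.mul_assoc, Matrix.mul_nonsing_inv _ hYd, Matrix.mul_one] at h1
    exact h1
  have e5 := congrFun (congrFun e4 a) b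
  rw [Matrix.mul_diagonal, Matrix.diagonal_mul, mul_comm] at e5
  exact (mul_right_cancel₀ hab e5).symm

end Pool.Agent.Work.MP_77d073_nt.Blk
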