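import Pool.Agent.Work.MP_77d073_nt.Blk.Lim

set_option autoImplicit false

/-!
# Blk/Sep (M): an invariant coordinate subspace separates the classes of a limit

sep_of_inv. `field_of_matrix` (Field.lean) for `B = M.map (Int.castRingHom ℚ)` gives `K, b, θ`; J as in SubspaceResult.lean /
Wall/Cop.lean (`J = {σ | ∃ i ∈ I, coef b z i σ ≠ 0}`), `card_J` (Sub.lean) gives `J.card = I.card` and the coefficients.
`k = I.card`, `x σ = -(n - k)` on `J`, `k` off `J`; `a i = -(n - k)` for `i ∈ I`, `k` otherwise; membership in `TZ K`, the sum and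
`hle` exactly as in Part A of `core1` (Core.lean). `lim_unit` gives `y ∈ closure (orb z)` with `coef b y i σ = g i σ`,
the `g` of `core1`. Lower bound: `lower_bound b` (Trans.lean) and `limit_lemma` (Limit.lean) for `z`, then `ne_zero_of_prod` and `osc`
(Osc.lean) exactly as in `core1`: for `v ∈ lin (Gam K) x` and `g i σ ≠ 0`, `g i τ ≠ 0`: `v σ = v τ`.
Fix `i ∈ I`, `j ∉ I`; `kap a` with `g a (kap a) ≠ 0` (as in core1: hex). `x (kap i) = a i ≠ a j = x (kap j)`. `mem_lin_self`
and `lin_le_span` (with `Gam_cobounded`, `Gam_le_TZ`): `x` is in the real span of `{γ ∈ Gam ∩ lin}`; the real functional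
`γ ↦ Re γ (kap i) - Re γ (kap j)` does not vanish at `x`, so it does not vanish at some `γ ∈ Gam ∩ lin` (otherwise the span is in its
kernel). `eig_unit` for `y` (independent: `orb_det`, `li_iff_det`) gives `β` with `Eig y β` and
`|β i| = exp (m Re γ (kap i)) ≠ exp (m Re γ (kap j)) = |β j|`. So `¬ Rl y i j`.
-/

namespace Pool.Agent.Work.MP_77d073_nt.Blk

open NumberField NumberField.Units Module Filter Topology
open Pool.Agent.Work.MP_77d073_nt Pool.Agent.Work.MP_77d073_nt.Root

theorem sep_of_inv {n : ℕ} (hn : 3 ≤ n) {z : Fin n → Fin n → ℝ} (hz : (Matrix.of z).det ≠ 0)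
    {c : ℝ} (hc : 0 < c) (hlow : ∀ p : Fin n → ℤ, p ≠ 0 → c ≤ |∏ i, ∑ j, z i j * (p j : ℝ)|)
    (I : Finset (Fin n)) (hI : I.Nonempty) (hI' : Iᶜ.Nonempty)
    {B : Matrix (Fin n) (Fin n) ℚ} (hirr : Irreducible B.charpoly)
    (hinv : ∀ x : Fin n → ℝ, (∀ i ∈ I, ∑ j, z i j * x j = 0) →
      ∀ i ∈ I, ∑ j, z i j * ((B.map (Rat.cast : ℚ → ℝ)).mulVec x) j = 0) :
    ∃ y ∈ closure (orb z), ∀ i ∈ I, ∀ j, j ∉ I → ¬ Rl y i j := by
  classical
  obtain ⟨K, _, _, b, θ, hb, hgen⟩ := field_of_matrix B hirr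
  have hzl : LinearIndependent ℝ z := (li_iff_det z).mpr hz
  set J : Finset (K →+* ℂ) := Finset.univ.filter fun σ => ∃ i ∈ I, coef b z i σ ≠ 0 with hJdef
  have hJ : ∀ σ, σ ∈ J ↔ ∃ i ∈ I, coef b z i σ ≠ 0 := by
    intro σ
    simp [hJdef]
  have hIJ : J.card = I.card := (card_J hb hgen hzl hinv hJ).1
  have hcard : Fintype.card (Fin n) = Fintype.card (K →+* ℂ) := by
    rw [NumberField.Embeddings.card, ← Module.finrank_eq_card_basis b]
  have hcard' : Fintype.card (K →+* ℂ) = n := by rw [← hcard, Fintype.card_fin]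
  set k : ℕ := I.card with hk
  have hkn : k < n := by
    have h1 : 0 < Iᶜ.card := Finset.card_pos.mpr hI'
    have h2 : I.card + Iᶜ.card = n := by rw [Finset.card_add_card_compl, Fintype.card_fin]
    omega
  have hk0 : 0 < k := Finset.card_pos.mpr hI
  have hknR : (k : ℝ) < n := by exact_mod_cast hkn
  have hk0R : (0 : ℝ) < k := by exact_mod_cast hk0
  have hJconj : ∀ σ, ComplexEmbedding.conjugate σ ∈ J ↔ σ ∈ J := by
    intro σ
    rw [hJ, hJ]
    simp only [coef_conj, ne_eq, map_eq_zero]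
  set x : (K →+* ℂ) → ℝ := fun σ => if σ ∈ J then -((n : ℝ) - k) else k with hx
  set a : Fin n → ℝ := fun i => if i ∈ I then -((n : ℝ) - k) else k with ha
  have hxJ : ∀ σ, x σ = -((n : ℝ) - k) ↔ σ ∈ J := by
    intro σ
    simp only [hx]
    split_ifs with h1
    · simp [h1]
    · simp only [h1, iff_false]; intro h2; linarith
  have hxT : (fun σ => (x σ : ℂ)) ∈ TZ K := by
    refine ⟨fun σ => ?_, ?_⟩
    · rw [Complex.conj_ofReal]
      simp only [hx, hJconj]
    · rw [← Complex.ofReal_sum]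
      have : ∑ σ, x σ = 0 := by
        simp only [hx]
        rw [Finset.sum_ite, Finset.sum_const, Finset.sum_const]
        have h1 : (Finset.univ.filter fun σ => σ ∈ J).card = k := by
          rw [Finset.filter_mem_eq_inter, Finset.univ_inter, hIJ]
        have h2 : (Finset.univ.filter fun σ => σ ∉ J).card = n - k := by
          have h3 := Finset.card_filter_add_card_filter_not
            (s := (Finset.univ : Finset (K →+* ℂ))) (fun σ => σ ∈ J)
          rw [h1, Finset.card_univ, hcard'] at h3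
          omega
        rw [h1, h2, nsmul_eq_mul, nsmul_eq_mul, Nat.cast_sub hkn.le]
        ring
      rw [this, Complex.ofReal_zero]
  have ha0 : ∑ i, a i = 0 := by
    simp only [ha]
    rw [Finset.sum_ite, Finset.sum_const, Finset.sum_const]
    have h1 : (Finset.univ.filter fun i => i ∈ I).card = k := by
      rw [Finset.filter_mem_eq_inter, Finset.univ_inter]
    have h2 : (Finset.univ.filter fun i => i ∉ I).card = n - k := by
      have h3 := Finset.card_filter_add_card_filter_not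
        (s := (Finset.univ : Finset (Fin n))) (fun i => i ∈ I)
      rw [h1, Finset.card_univ, Fintype.card_fin] at h3
      omega
    rw [h1, h2, nsmul_eq_mul, nsmul_eq_mul, Nat.cast_sub hkn.le]
    ring
  have hle : ∀ i σ, coef b z i σ ≠ 0 → x σ ≤ a i := by
    intro i σ hh
    by_cases hi : i ∈ I
    · have : σ ∈ J := (hJ σ).mpr ⟨i, hi, hh⟩
      simp [hx, ha, hi, this]
    · simp only [hx, ha, hi, if_false]
      split_ifs
      · linarith
      · exact le_rfl
  obtain ⟨y, hy, hyc⟩ := lim_unit b z x hxT a ha0 hle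
  -- the lower bound
  obtain ⟨D, hD, hlowD⟩ := lower_bound b
  have hDR : (0 : ℝ) < (D : ℝ) ^ n := by
    have : (0 : ℝ) < D := by exact_mod_cast hD
    positivity
  have hcD : 0 < c / (D : ℝ) ^ n := div_pos hc hDR
  have hVT : lin (Gam K) (fun σ => (x σ : ℂ)) ≤ TZ K := by
    intro v hv
    exact cl_le (fun γ hγ => Gam_le_TZ hγ) hxT (lin_sub_cl hv)
  have hosc : ∀ i, ∀ v ∈ lin (Gam K) (fun σ => (x σ : ℂ)), ∀ σ τ,
      coef b y i σ ≠ 0 → coef b y i τ ≠ 0 → v σ = v τ := by
    intro i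
    refine osc _ hVT (coef b y i) (fun σ => coef_conj b y i σ) ?_
    intro v hv ξ hξ
    have h1 := limit_lemma (coef b z) (hlowD z c hlow) x hxT a ha0 hle hv ξ hξ
    have h2 := ne_zero_of_prod hcD h1 i
    simp only [hyc]
    exact h2
  have hydet : (Matrix.of y).det ≠ 0 := by
    rw [← abs_pos, orb_det hy]; exact abs_pos.mpr hz
  have hyl : LinearIndependent ℝ y := (li_iff_det y).mpr hydet
  have hex : ∀ i, ∃ σ : K →+* ℂ, coef b y i σ ≠ 0 := fun i =>
    Function.ne_iff.mp ((coef_li b hyl).ne_zero i)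
  choose kap hkap using hex
  have hxk : ∀ i, x (kap i) = a i := by
    intro i
    by_contra hne
    apply hkap i
    rw [hyc, if_neg hne]
  refine ⟨y, hy, fun i hi j hj hR => ?_⟩
  have hxne : x (kap i) ≠ x (kap j) := by
    rw [hxk, hxk]
    simp only [ha, hi, hj, if_true, if_false]
    intro h
    linarith
  -- a unit which separates
  obtain ⟨R, hR0, hcob⟩ := Gam_cobounded K
  have hspan := lin_le_span (Gam K) (TZ K) (fun γ hγ => Gam_le_TZ hγ) hcob hxT
  have hxs := hspan (mem_lin_self (Gam K) (fun σ => (x σ : ℂ)))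
  let f : ((K →+* ℂ) → ℂ) →ₗ[ℝ] ℝ :=
    { toFun := fun v => (v (kap i)).re - (v (kap j)).re
      map_add' := by intro a b; simp; ring
      map_smul' := by intro c a; simp; ring }
  obtain ⟨γ, ⟨hγ, hγl⟩, hγne⟩ : ∃ γ, (γ ∈ Gam K ∧ γ ∈ lin (Gam K) (fun σ => (x σ : ℂ))) ∧
      (γ (kap i)).re ≠ (γ (kap j)).re := by
    by_contra hcon
    push Not at hcon
    have hle' : Submodule.span ℝ {γ | γ ∈ Gam K ∧ γ ∈ lin (Gam K) (fun σ => (x σ : ℂ))} ≤
        LinearMap.ker f := by
      rw [Submodule.span_le]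
      intro γ hγ
      change (γ (kap i)).re - (γ (kap j)).re = 0
      rw [hcon γ hγ, sub_self]
    have h5 : (x (kap i) : ℂ).re - (x (kap j) : ℂ).re = 0 := hle' hxs
    apply hxne
    simpa [sub_eq_zero] using h5
  obtain ⟨m, β, hm, hE, hβ⟩ := eig_unit (by omega) b hyl hγ
    (fun i' σ τ hσ hτ => hosc i' γ hγl σ τ hσ hτ)
  have h1 := hβ i (kap i) (hkap i)
  have h2 := hβ j (kap j) (hkap j)
  rw [hR β hE, h2] at h1
  have h3 := Real.exp_injective h1
  have hmR : (m : ℝ) ≠ 0 := by exact_mod_cast hm.ne'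
  exact hγne (mul_left_cancel₀ hmR h3).symm

end Pool.Agent.Work.MP_77d073_nt.Blk
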