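import Pool.Agent.Work.MP_77d073_nt.Blk.PerB
import Pool.Agent.Work.MP_77d073_nt.Blk.PerC
import Pool.Agent.Work.MP_77d073_nt.Blk.Sep

set_option autoImplicit false

/-!
# Blk/Per (proved): the standing assumptions at a maximal limit; unions of classes
-/

namespace Pool.Agent.Work.MP_77d073_nt.Blk

open Filter Topology
open Pool.Agent.Work.MP_77d073_nt Pool.Agent.Work.MP_77d073_nt.Root

theorem bs_of_max {n : ℕ} {L y₀ : Fin n → Fin n → ℝ} (hL : (Matrix.of L).det ≠ 0) {c : ℝ}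
    (hc : 0 < c) (hlow : ∀ p : Fin n → ℤ, p ≠ 0 → c ≤ |∏ i, ∑ j, L i j * (p j : ℝ)|)
    (hy₀ : y₀ ∈ closure (orb L)) (hmax : ∀ y ∈ closure (orb y₀), ∀ i k, Rl y₀ i k → Rl y i k) :
    Bs c |(Matrix.of L).det| y₀ (closure (orb y₀)) := by
  have hdet := orb_det hy₀
  have h0 : (Matrix.of y₀).det ≠ 0 := by
    rw [← abs_pos, hdet]; exact abs_pos.mpr hL
  refine ⟨hc, abs_pos.mpr hL, orb_CI y₀, ⟨fun y hy => (orb_det hy).trans hdet, fun y hy p hp => ?_⟩,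
    subset_closure (self_mem_orb y₀), fun y hy β hβ => eig_lim h0 hy hβ,
    fun y hy i k h β hβ => h β (eig_lim h0 hy hβ), hmax⟩
  exact orb_lower hy (fun p hp => orb_lower hy₀ hlow p hp) p hp

/-- If the span of the forms with index in `C` is invariant under an irreducible rational matrix
then `C` is a union of classes. -/
theorem not_un {n : ℕ} (hn : 3 ≤ n) {c D : ℝ} {y₀ : Fin n → Fin n → ℝ}
    {X : Set (Fin n → Fin n → ℝ)} (hX : Bs c D y₀ X) (C : Finset (Fin n)) (hC : C.Nonempty)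
    (hC' : Cᶜ.Nonempty) {z : Fin n → Fin n → ℝ} (hz : z ∈ X)
    {B : Matrix (Fin n) (Fin n) ℚ} (hirr : Irreducible B.charpoly)
    (hinv : ∀ x : Fin n → ℝ, (∀ i ∈ C, ∑ j, z i j * x j = 0) →
      ∀ i ∈ C, ∑ j, z i j * ((B.map (Rat.cast : ℚ → ℝ)).mulVec x) j = 0) :
    ∀ i ∈ C, ∀ j, j ∉ C → ¬ Rl y₀ i j := by
  intro i hi j hj hR
  obtain ⟨y, hy, hyR⟩ := sep_of_inv hn (hX.good.ne hX.Dpos hz) hX.cpos (hX.good.low z hz) C hC hC'
    hirr hinv
  exact hyR i hi j hj (hX.same y (hX.ci.orb_sub hz hy) i j hR)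

end Pool.Agent.Work.MP_77d073_nt.Blk
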