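import Pool.Agent.Work.MP_77d073_nt.Blk.Defs

set_option autoImplicit false

/-!
# Blk/PerA (M): persistence of eigenvalue vectors

eig_lim: `mem_closure_orb` (Space.lean) gives `M_k, t_k`; `(M_k).inv` (Uni.inv) gives `M_k'`; `B_k = M_k' * B * M_k` satisfies
`∑ l, y_k a l * B_k l b = β a * y_k a b` for `y_k = tr L M_k t_k` (`of y_k = diagonal t_k * of L * M_k` as matrices). So
`B_k = (of y_k)⁻¹ * diagonal β * of y_k` (cast to ℝ), which converges to `(of y)⁻¹ * diagonal β * of y` (inverses converge: see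
`recur_fam`, Wall/Fam.lean; all determinants are ≠ 0 by `orb_det`, `tr_det`). The entries of `B_k` are integers, so the limit has
integer entries (the integers are closed in ℝ: `Int.isClosedEmbedding_coe_real.isClosed_range`, `IsClosed.mem_of_tendsto`); choose
them: `B'`. Then `of y * B' = diagonal β * of y` and the entries are the claim.
-/

namespace Pool.Agent.Work.MP_77d073_nt.Blk

open Filter Topology
open Pool.Agent.Work.MP_77d073_nt Pool.Agent.Work.MP_77d073_nt.Root

private theorem eig_mat {n : ℕ} (L : Fin n → Fin n → ℝ) (β : Fin n → ℝ)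
    (B : Matrix (Fin n) (Fin n) ℤ) :
    (∀ a b, ∑ l, L a l * (B l b : ℝ) = β a * L a b) ↔
      Matrix.of L * B.map (Int.cast : ℤ → ℝ) = Matrix.diagonal β * Matrix.of L := by
  constructor
  · intro h
    ext a b
    rw [Matrix.diagonal_mul, Matrix.mul_apply]
    simpa using h a b
  · intro h a b
    have h1 := congrFun (congrFun h a) b
    rw [Matrix.diagonal_mul, Matrix.mul_apply] at h1
    simpa using h1

theorem eig_lim {n : ℕ} {L y : Fin n → Fin n → ℝ} (hL : (Matrix.of L).det ≠ 0)
    (hy : y ∈ closure (orb L)) {β : Fin n → ℝ} (hE : Eig L β) : Eig y β := by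
  obtain ⟨B, hB⟩ := hE
  rw [eig_mat] at hB
  obtain ⟨M, t, hM, ht, hlim⟩ := mem_closure_orb hy
  choose M' hM' hMM' hM'M using fun k => (hM k).inv
  set w : ℕ → Matrix (Fin n) (Fin n) ℝ := fun k => Matrix.of (tr L (M k) (t k)) with hw
  have hwlim : Tendsto w atTop (𝓝 (Matrix.of y)) :=
    tendsto_pi_nhds.mpr fun i => tendsto_pi_nhds.mpr fun j => hlim i j
  have hy0 : (Matrix.of y).det ≠ 0 := by
    rw [← abs_pos, orb_det hy, abs_pos]
    exact hL
  have hw0 : ∀ k, (w k).det ≠ 0 := by
    intro k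
    rw [hw]
    simp only
    rw [tr_det, ht, one_mul]
    refine mul_ne_zero hL ?_
    exact_mod_cast (hM k).ne_zero
  have hinv : Tendsto (fun k => (w k)⁻¹) atTop (𝓝 (Matrix.of y)⁻¹) := by
    have e : ∀ A : Matrix (Fin n) (Fin n) ℝ, A⁻¹ = A.det⁻¹ • A.adjugate := by
      intro A
      rw [Matrix.inv_def, Ring.inverse_eq_inv']
    simp_rw [e]
    apply Tendsto.smul
    · exact ((continuous_id.matrix_det.tendsto _).comp hwlim).inv₀ hy0
    · exact (continuous_id.matrix_adjugate.tendsto _).comp hwlim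
  have hwe : ∀ k, w k = Matrix.diagonal (t k) *
      (Matrix.of L * (M k).map (Int.cast : ℤ → ℝ)) := by
    intro k
    ext i j
    rw [Matrix.diagonal_mul, Matrix.mul_apply]
    simp [hw, tr]
  have hcast : ∀ A C : Matrix (Fin n) (Fin n) ℤ, (A * C).map (Int.cast : ℤ → ℝ) =
      A.map (Int.cast : ℤ → ℝ) * C.map (Int.cast : ℤ → ℝ) := by
    intro A C
    have := Matrix.map_mul (L := A) (M := C) (f := Int.castRingHom ℝ)
    simpa using this
  have hone : (1 : Matrix (Fin n) (Fin n) ℤ).map (Int.cast : ℤ → ℝ) = 1 := by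
    ext i j
    simp [Matrix.one_apply]
  have hkey : ∀ k, w k * (M' k * B * M k).map (Int.cast : ℤ → ℝ) = Matrix.diagonal β * w k := by
    intro k
    have h1 : (M k).map (Int.cast : ℤ → ℝ) * (M' k).map (Int.cast : ℤ → ℝ) = 1 := by
      rw [← hcast, hMM' k, hone]
    rw [hwe, hcast, hcast]
    calc Matrix.diagonal (t k) * (Matrix.of L * (M k).map (Int.cast : ℤ → ℝ)) *
          ((M' k).map (Int.cast : ℤ → ℝ) * B.map (Int.cast : ℤ → ℝ) *
            (M k).map (Int.cast : ℤ → ℝ))
        = Matrix.diagonal (t k) * (Matrix.of L *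
            ((M k).map (Int.cast : ℤ → ℝ) * (M' k).map (Int.cast : ℤ → ℝ)) *
              B.map (Int.cast : ℤ → ℝ)) * (M k).map (Int.cast : ℤ → ℝ) := by
          simp only [Matrix.mul_assoc]
      _ = Matrix.diagonal (t k) * (Matrix.diagonal β * Matrix.of L) *
            (M k).map (Int.cast : ℤ → ℝ) := by
          rw [h1, Matrix.mul_one, hB]
      _ = (Matrix.diagonal (t k) * Matrix.diagonal β) * (Matrix.of L *
            (M k).map (Int.cast : ℤ → ℝ)) := by
          simp only [Matrix.mul_assoc]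
      _ = (Matrix.diagonal β * Matrix.diagonal (t k)) * (Matrix.of L *
            (M k).map (Int.cast : ℤ → ℝ)) := by
          rw [Matrix.diagonal_mul_diagonal, Matrix.diagonal_mul_diagonal]
          congr 2
          funext i
          ring
      _ = Matrix.diagonal β * (Matrix.diagonal (t k) * (Matrix.of L *
            (M k).map (Int.cast : ℤ → ℝ))) := by
          simp only [Matrix.mul_assoc]
  have hBk : ∀ k, (M' k * B * M k).map (Int.cast : ℤ → ℝ) =
      (w k)⁻¹ * (Matrix.diagonal β * w k) := by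
    intro k
    rw [← hkey k, ← Matrix.mul_assoc,
      Matrix.nonsing_inv_mul _ (isUnit_iff_ne_zero.2 (hw0 k)), Matrix.one_mul]
  have hT : Tendsto (fun k => (w k)⁻¹ * (Matrix.diagonal β * w k)) atTop
      (𝓝 ((Matrix.of y)⁻¹ * (Matrix.diagonal β * Matrix.of y))) :=
    hinv.mul (tendsto_const_nhds.mul hwlim)
  have hint : ∀ a b, ∃ z : ℤ,
      (z : ℝ) = ((Matrix.of y)⁻¹ * (Matrix.diagonal β * Matrix.of y)) a b := by
    intro a b
    have h1 : Tendsto (fun k => ((w k)⁻¹ * (Matrix.diagonal β * w k)) a b) atTop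
        (𝓝 (((Matrix.of y)⁻¹ * (Matrix.diagonal β * Matrix.of y)) a b)) :=
      tendsto_pi_nhds.1 (tendsto_pi_nhds.1 hT a) b
    have h2 : ((Matrix.of y)⁻¹ * (Matrix.diagonal β * Matrix.of y)) a b ∈
        Set.range (Int.cast : ℤ → ℝ) :=
      Int.isClosedEmbedding_coe_real.isClosed_range.mem_of_tendsto h1
        (Eventually.of_forall fun k => ⟨(M' k * B * M k) a b, by rw [← hBk k]; rfl⟩)
    exact h2
  choose B' hB' using hint
  refine ⟨Matrix.of B', ?_⟩
  rw [eig_mat]
  have h3 : (Matrix.of B').map (Int.cast : ℤ → ℝ) =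
      (Matrix.of y)⁻¹ * (Matrix.diagonal β * Matrix.of y) := by
    ext a b
    exact hB' a b
  rw [h3, ← Matrix.mul_assoc, Matrix.mul_nonsing_inv _ (isUnit_iff_ne_zero.2 hy0), Matrix.one_mul]

end Pool.Agent.Work.MP_77d073_nt.Blk
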