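import Pool.Agent.Work.MP_77d073_nt.Blk.PerA

set_option autoImplicit false

/-!
# Blk/PerB (M): a limit with the maximal number of classes

exists_max: let `cls y i = Finset.univ.filter (fun k => Rl y i k)` (classical) and `N y = (Finset.univ.image (cls y)).card ≤ n`. The
set of the values `N y`, `y ∈ closure (orb L)`, is nonempty and bounded, so there is `y₀ ∈ closure (orb L)` with `N y ≤ N y₀` for all
`y ∈ closure (orb L)` (`Nat.find` for `n - N`, or `Set.Finite`/`Nat.sSup`). Let `y ∈ closure (orb y₀)`, which is contained in `closure (orb L)`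
(`(orb_CI L).orb_sub`). `Rl y i k → Rl y₀ i k` (`eig_lim` for `y₀`, `y`; `det y₀ ≠ 0` by `orb_det`). The map `cls y i ↦ cls y₀ i` from the image of `cls y`
to the image of `cls y₀` is well defined (if `cls y i = cls y j` then `Rl y i j`, so `Rl y₀ i j`, so `cls y₀ i = cls y₀ j`: `Rl` is
an equivalence relation, see Defs) and surjective, and `N y ≤ N y₀`, so it is injective: if `Rl y₀ i k` then `cls y₀ i = cls y₀ k`, so `cls y i = cls y k`, so
`Rl y i k`. (A function `f` with `cls y₀ i = f (cls y i)`: `Finset.card_image_iff`, `Finset.injOn_of_surjOn_of_card_le` or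
`Finset.surj_on_of_inj_on_of_card_le`.)
-/

namespace Pool.Agent.Work.MP_77d073_nt.Blk

open Filter Topology
open Pool.Agent.Work.MP_77d073_nt Pool.Agent.Work.MP_77d073_nt.Root

theorem exists_max {n : ℕ} {L : Fin n → Fin n → ℝ} (hL : (Matrix.of L).det ≠ 0) :
    ∃ y₀ ∈ closure (orb L), ∀ y ∈ closure (orb y₀), ∀ i k, Rl y₀ i k → Rl y i k := by
  classical
  let R : (Fin n → Fin n → ℝ) → Finset (Fin n × Fin n) := fun y =>
    Finset.univ.filter fun p => Rl y p.1 p.2
  obtain ⟨y₀, hy₀, hmin⟩ := WellFounded.has_min (measure fun y => (R y).card).wf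
    (closure (orb L)) ⟨L, subset_closure (self_mem_orb L)⟩
  refine ⟨y₀, hy₀, fun y hy i k hik => ?_⟩
  have hd : (Matrix.of y₀).det ≠ 0 := by
    intro h0
    have h1 := orb_det hy₀
    rw [h0, abs_zero] at h1
    exact hL (abs_eq_zero.1 h1.symm)
  have hsub : R y ⊆ R y₀ := by
    intro p hp
    have h1 : Rl y p.1 p.2 := (Finset.mem_filter.1 hp).2
    exact Finset.mem_filter.2 ⟨Finset.mem_univ _, fun β hβ => h1 β (eig_lim hd hy hβ)⟩
  have hyL : y ∈ closure (orb L) := (orb_CI L).orb_sub hy₀ hy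
  have hcard : (R y₀).card ≤ (R y).card := not_lt.1 (hmin y hyL)
  have heq : R y = R y₀ := Finset.eq_of_subset_of_card_le hsub hcard
  have h2 : (i, k) ∈ R y₀ := Finset.mem_filter.2 ⟨Finset.mem_univ _, hik⟩
  rw [← heq] at h2
  exact (Finset.mem_filter.1 h2).2

end Pool.Agent.Work.MP_77d073_nt.Blk
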