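import Pool.Agent.Work.MP_77d073_nt.Blk.Per
import Pool.Agent.Work.MP_77d073_nt.Blk.Irr
import Pool.Agent.Work.MP_77d073_nt.Blk.Rec
import Pool.Agent.Work.MP_77d073_nt.Wall.Step

set_option autoImplicit false

/-!
# Blk/Stp (M-L, adaptation of Wall/Step.step_fam): the step for every block size

step_wt: copy the proof of `step_fam` (Wall/Step.lean) with `X` in place of `closure (orb L)`, `P := C`. `Red X β` comes
from `meets_box` with `hX.ci`, `hX.good` (n ≥ 1, `hX.cpos`, `hX.Dpos`). The sequence `hseq`: use `irr_wt C hC hC'` and `recur_wt` (weights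
`wx C`) instead of `irr_block` and `recur_fam`; if the block `C × Cᶜ` of `G` vanished then the span of the forms `z a`, `a ∈ C` would be
invariant under `M` (computation `hkey` in `exact_block_co`, Wall/Cop.lean, with `t = wx C r`), and `not_un` (with
`B = M.map (Int.castRingHom ℚ)`) would contradict `hun`. After `hseq` everything is as in `step_fam`: the blow-up uses `bt C`;
the family is compatible with the block scaling: `g s a b ≠ 0 → (a ∈ C ↔ b ∈ C)` follows from `Sup C (g s)`
(if not both in `C` then `g s a b = 1 a b ≠ 0` gives `a = b`).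
-/

namespace Pool.Agent.Work.MP_77d073_nt.Blk

open Filter Topology
open Pool.Agent.Work.MP_77d073_nt Pool.Agent.Work.MP_77d073_nt.Root

theorem step_wt {n : ℕ} (hn : 3 ≤ n) {c D : ℝ} {y₀ : Fin n → Fin n → ℝ}
    {X : Set (Fin n → Fin n → ℝ)} (hX : Bs c D y₀ X) (C : Finset (Fin n)) (hC : C.Nonempty)
    (hC' : Cᶜ.Nonempty) (hun : ∃ i ∈ C, ∃ j, j ∉ C ∧ Rl y₀ i j) {ι : Type}
    (g : ι → Matrix (Fin n) (Fin n) ℝ) (hg : ∀ s, Sup C (g s))
    {x : Fin n → Fin n → ℝ} (hx : x ∈ X) (hgx : ∀ s, ac (g s) x ∈ X) :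
    ∃ z ∈ X, ∃ B : Matrix (Fin n) (Fin n) ℝ,
      (∀ a b, B a b ≠ 0 → a ∈ C ∧ b ∉ C) ∧ (∃ a b, B a b ≠ 0) ∧
      (∀ s, ac (g s) z ∈ X) ∧ ∀ s, ac (g s * (1 + B)) z ∈ X := by
  classical
  have hn1 : 1 ≤ n := by omega
  have hD : 0 < D := hX.Dpos
  have hG : Good c D X := hX.good
  obtain ⟨β, hβ, hbox0⟩ := meets_box (n := n) hn1 hX.cpos hD
  have hbox : Red X β := hbox0 _ hX.ci hG
  obtain ⟨ε₀, hε₀, hirr⟩ := irr_wt C hC hC'
  have hgC : ∀ s a b, g s a b ≠ 0 → (a ∈ C ↔ b ∈ C) := by
    intro s a b hab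
    by_cases h : a ∈ C ∧ b ∈ C
    · exact ⟨fun _ => h.2, fun _ => h.1⟩
    · rw [hg s a b h] at hab
      by_cases hab' : a = b
      · rw [hab']
      · exact absurd (Matrix.one_apply_ne hab') hab
  have hseq : ∀ N : ℕ, ∃ z ∈ X, (∀ s, ac (g s) z ∈ X) ∧
      ∃ (G : Matrix (Fin n) (Fin n) ℝ),
      (∀ a b, |G a b - (1 : Matrix (Fin n) (Fin n) ℝ) a b| < 1 / ((N : ℝ) + 1)) ∧
      ac G z ∈ X ∧ (∀ s, ac (g s * G) z ∈ X) ∧ ∃ a ∈ C, ∃ b ∉ C, G a b ≠ 0 := by
    intro N
    have hε : 0 < min ε₀ (1 / ((N : ℝ) + 1)) := lt_min hε₀ (by positivity)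
    obtain ⟨z, hz, huz, G, r, M, hG1, hr, hM, hGz, huGz, hrel⟩ :=
      recur_wt hX.ci hbox hD hG C g hg hx hgx hε 1
    refine ⟨z, hz, huz, G, fun a b => (hG1 a b).trans_le (min_le_right _ _), hGz, huGz, ?_⟩
    have hirrM := hirr z (hG.ne hD hz) G r M (fun a b => (hG1 a b).trans_le (min_le_left _ _)) hr hM hrel
    by_contra hcon
    push Not at hcon
    have hkey : ∀ x : Fin n → ℝ, (∀ a ∈ C, ∑ j, z a j * x j = 0) → ∀ a ∈ C,
        ∑ j, z a j * (((M.map (Int.castRingHom ℚ)).map (Rat.cast : ℚ → ℝ)).mulVec x) j = 0 := by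
      intro x hx a ha
      have h1 : ∀ l, (((M.map (Int.castRingHom ℚ)).map (Rat.cast : ℚ → ℝ)).mulVec x) l =
          ∑ j, (M l j : ℝ) * x j := by
        intro l
        simp [Matrix.mulVec, dotProduct]
      simp_rw [h1]
      have h2 := tr_sum z M (wx C r) a x
      rw [← hrel] at h2
      have h3 : ∑ j, ac G z a j * x j = 0 := by
        have h4 : ∑ j, ac G z a j * x j = ∑ b, G a b * ∑ j, z b j * x j := by
          simp only [ac, Finset.sum_mul, Finset.mul_sum]
          rw [Finset.sum_comm]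
          refine Finset.sum_congr rfl fun b _ => Finset.sum_congr rfl fun j _ => ?_
          ring
        rw [h4]
        refine Finset.sum_eq_zero fun b _ => ?_
        by_cases hb : b ∈ C
        · rw [hx b hb, mul_zero]
        · rw [hcon a ha b hb, zero_mul]
      rw [h3] at h2
      exact (mul_eq_zero.mp h2.symm).resolve_left (wx_pos C r a).ne'
    obtain ⟨i, hi, j, hj, hR⟩ := hun
    exact not_un hn hX C hC hC' hz (B := M.map (Int.castRingHom ℚ)) hirrM hkey i hi j hj hR
  choose z hz huz G hG1 hGz huGz hne using hseq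
  have hblk : ∀ N, blk C (G N) ≠ 0 := by
    intro N h0
    obtain ⟨a, ha, b, hb, hab⟩ := hne N
    have := congrFun (congrFun h0 a) b
    simp only [blk, Pi.zero_apply] at this
    rw [if_pos ⟨ha, hb⟩] at this
    exact hab this
  have hm0 : ∀ N, 0 < ‖blk C (G N)‖ := fun N => norm_pos_iff.mpr (hblk N)
  have hmlt : ∀ N, ‖blk C (G N)‖ ≤ 1 / ((N : ℝ) + 1) := by
    intro N
    have h0 : (0 : ℝ) ≤ 1 / ((N : ℝ) + 1) := by positivity
    rw [pi_norm_le_iff_of_nonneg h0]
    intro a
    rw [pi_norm_le_iff_of_nonneg h0]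
    intro b
    simp only [blk]
    split_ifs with h
    · have hab : a ≠ b := by
        rintro rfl; exact h.2 h.1
      have := hG1 N a b
      rw [Matrix.one_apply_ne hab, sub_zero] at this
      exact this.le
    · simpa using h0
  have hsphere : ∀ N, (‖blk C (G N)‖)⁻¹ • blk C (G N) ∈ Metric.sphere (0 : Fin n → Fin n → ℝ) 1 := by
    intro N
    rw [mem_sphere_zero_iff_norm, norm_smul, norm_inv, norm_norm, inv_mul_cancel₀ (hm0 N).ne']
  obtain ⟨B, hBs, φ, hφ, hBlim⟩ := (isCompact_sphere (0 : Fin n → Fin n → ℝ) 1).tendsto_subseq hsphere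
  have hBab : ∀ a b, Tendsto (fun N => (‖blk C (G (φ N))‖)⁻¹ * blk C (G (φ N)) a b) atTop
      (𝓝 (B a b)) := by
    intro a b
    exact (tendsto_pi_nhds.mp ((tendsto_pi_nhds.mp hBlim) a)) b
  have hBsupp : ∀ a b, ¬ (a ∈ C ∧ b ∉ C) → B a b = 0 := by
    intro a b hab
    have h1 := hBab a b
    have h2 : (fun N => (‖blk C (G (φ N))‖)⁻¹ * blk C (G (φ N)) a b) = fun _ => 0 := by
      funext N
      simp only [blk]
      rw [if_neg hab, mul_zero]
    rw [h2] at h1
    exact tendsto_nhds_unique h1 tendsto_const_nhds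
  have hBne : ∃ a b, B a b ≠ 0 := by
    by_contra hcon
    push Not at hcon
    have : B = 0 := by funext a b; exact hcon a b
    rw [this] at hBs
    simp at hBs
  -- the scaling
  set s : ℕ → ℝ := fun N => Real.log ((‖blk C (G (φ N))‖)⁻¹) / n with hs
  have hnR : (n : ℝ) ≠ 0 := by
    have : 0 < n := by omega
    exact_mod_cast this.ne'
  have hcardR : (C.card : ℝ) + (Cᶜ.card : ℝ) = n := by
    have : C.card + Cᶜ.card = n := by rw [Finset.card_add_card_compl, Fintype.card_fin]
    exact_mod_cast this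
  have hbt_in : ∀ N a b, a ∈ C → b ∉ C → bt C (s N) a / bt C (s N) b = (‖blk C (G (φ N))‖)⁻¹ := by
    intro N a b ha hb
    unfold bt
    rw [if_pos ha, if_neg hb, ← Real.exp_sub]
    have : (Cᶜ.card : ℝ) * s N - -((C.card : ℝ) * s N) = Real.log ((‖blk C (G (φ N))‖)⁻¹) := by
      rw [sub_neg_eq_add, ← add_mul, add_comm (Cᶜ.card : ℝ), hcardR, hs]
      field_simp
    rw [this, Real.exp_log (inv_pos.mpr (hm0 _))]
  have hbt_out : ∀ N a b, a ∉ C → b ∈ C → bt C (s N) a / bt C (s N) b = ‖blk C (G (φ N))‖ := by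
    intro N a b ha hb
    have h1 := hbt_in N b a hb ha
    have h2 := (bt_pos C (s N) a).ne'
    have h3 := (bt_pos C (s N) b).ne'
    rw [← inv_inv (‖blk C (G (φ N))‖), ← h1, inv_div]
  have hbt_same : ∀ N a b, (a ∈ C ↔ b ∈ C) → bt C (s N) a / bt C (s N) b = 1 := by
    intro N a b hab
    have : bt C (s N) a = bt C (s N) b := by
      unfold bt
      simp only [hab]
    rw [this, div_self (bt_pos C (s N) b).ne']
  have hGlim0 : ∀ a b, Tendsto (fun N => G (φ N) a b) atTop
      (𝓝 ((1 : Matrix (Fin n) (Fin n) ℝ) a b)) := by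
    intro a b
    rw [tendsto_iff_norm_sub_tendsto_zero]
    have h3 : Tendsto (fun k : ℕ => 1 / ((k : ℝ) + 1)) atTop (𝓝 0) := by
      apply Tendsto.div_atTop tendsto_const_nhds
      exact tendsto_atTop_add_const_right _ _ tendsto_natCast_atTop_atTop
    exact squeeze_zero (fun k => norm_nonneg _) (fun k => (hG1 (φ k) a b).le) (h3.comp hφ.tendsto_atTop)
  have hmlim : Tendsto (fun N => ‖blk C (G (φ N))‖) atTop (𝓝 0) := by
    have h3 : Tendsto (fun k : ℕ => 1 / ((k : ℝ) + 1)) atTop (𝓝 0) := by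
      apply Tendsto.div_atTop tendsto_const_nhds
      exact tendsto_atTop_add_const_right _ _ tendsto_natCast_atTop_atTop
    exact squeeze_zero (fun k => norm_nonneg _) (fun k => hmlt (φ k)) (h3.comp hφ.tendsto_atTop)
  have hGlim : ∀ a b, Tendsto (fun N => bt C (s N) a / bt C (s N) b * G (φ N) a b) atTop
      (𝓝 (((1 : Matrix (Fin n) (Fin n) ℝ) + Matrix.of B) a b)) := by
    intro a b
    rw [Matrix.add_apply, Matrix.of_apply]
    by_cases ha : a ∈ C
    · by_cases hb : b ∈ C
      · rw [hBsupp a b (by tauto), add_zero]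
        simp_rw [hbt_same _ a b (by tauto), one_mul]
        exact hGlim0 a b
      · have hab : a ≠ b := by rintro rfl; exact hb ha
        rw [Matrix.one_apply_ne hab, zero_add]
        refine (hBab a b).congr fun N => ?_
        rw [hbt_in N a b ha hb]
        simp only [blk]
        rw [if_pos ⟨ha, hb⟩]
    · by_cases hb : b ∈ C
      · have hab : a ≠ b := by rintro rfl; exact ha hb
        rw [Matrix.one_apply_ne hab, hBsupp a b (by tauto), zero_add]
        simp_rw [hbt_out _ a b ha hb]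
        have := hmlim.mul (hGlim0 a b)
        rw [zero_mul] at this
        exact this
      · rw [hBsupp a b (by tauto), add_zero]
        simp_rw [hbt_same _ a b (by tauto), one_mul]
        exact hGlim0 a b
  have huconj : ∀ q N a b, bt C (s N) a / bt C (s N) b * g q a b = g q a b := by
    intro q N a b
    by_cases h : g q a b = 0
    · rw [h, mul_zero]
    · rw [hbt_same N a b (hgC q a b h), one_mul]
  have huGlim : ∀ q a b, Tendsto (fun N => bt C (s N) a / bt C (s N) b * (g q * G (φ N)) a b) atTop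
      (𝓝 ((g q * ((1 : Matrix (Fin n) (Fin n) ℝ) + Matrix.of B)) a b)) := by
    intro q a b
    have h1 : ∀ N, bt C (s N) a / bt C (s N) b * (g q * G (φ N)) a b =
        ∑ d, g q a d * (bt C (s N) d / bt C (s N) b * G (φ N) d b) := by
      intro N
      rw [Matrix.mul_apply, Finset.mul_sum]
      refine Finset.sum_congr rfl fun d _ => ?_
      have h3 := (bt_pos C (s N) d).ne'
      have h4 : bt C (s N) a / bt C (s N) b * (g q a d * G (φ N) d b) =
          (bt C (s N) a / bt C (s N) d * g q a d) * (bt C (s N) d / bt C (s N) b * G (φ N) d b) := by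
        field_simp
      rw [h4, huconj q N a d]
    simp_rw [h1]
    rw [Matrix.mul_apply]
    exact tendsto_finsetSum _ fun d _ => (hGlim d b).const_mul _
  obtain ⟨w, hw, hall⟩ := blow (hX.ci) hbox (ι := ι ⊕ ι) (fun N => z (φ N)) (fun N => hz _)
    (fun q N => Sum.elim (fun s => g s) (fun s => g s * G (φ N)) q)
    (fun q N => by
      rcases q with q | q
      · exact huz _ q
      · exact huGz _ q)
    (fun N => bt C (s N)) (fun N i => bt_pos C _ i) (fun N => bt_prod C _)
    (Sum.elim (fun s => g s) (fun s => g s * (1 + Matrix.of B)))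
    (fun q a b => by
      rcases q with q | q
      · have : (fun N => bt C (s N) a / bt C (s N) b * g q a b) = fun _ => g q a b := by
          funext N; exact huconj q N a b
        show Tendsto (fun N => bt C (s N) a / bt C (s N) b * g q a b) atTop (𝓝 (g q a b))
        rw [this]
        exact tendsto_const_nhds
      · exact huGlim q a b)
  refine ⟨w, hw, Matrix.of B, fun a b hab => ?_, hBne, ?_, ?_⟩
  · by_contra hcon
    exact hab (hBsupp a b hcon)
  · exact fun s => hall (Sum.inl s)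
  · exact fun s => hall (Sum.inr s)

end Pool.Agent.Work.MP_77d073_nt.Blk
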