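import Pool.Agent.Work.MP_77d073_nt.Blk.Defs

set_option autoImplicit false

/-!
# Blk/SzA (S-M): a separating eigenvalue vector

exists_sep: `{β | Eig y β}` contains 0 and is closed under sums and integer multiples (`B + B'`, `z • B`). For every pair
(i, k) with `¬ Rl y i k` choose `β^{ik}` in it with `β^{ik} i ≠ β^{ik} k` (and 0 for the other pairs); list them as `γ_0, ..., γ_(s-1)`
(s = n^2, via an equivalence of `Fin n × Fin n` with `Fin (n * n)`) and take `β = ∑ j, T ^ j • γ_j` for a natural number `T` which is not a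
root of any of the finitely many nonzero real polynomials `∑ j, (γ_j i - γ_j k) X ^ j` (i, k not related): there is such a T (finitely many roots).
Alternatively: induction on a Finset of pairs: if β separates the pairs of S and γ separates the new pair, then `β + T • γ` separates all of them
for a suitable integer T.
-/

namespace Pool.Agent.Work.MP_77d073_nt.Blk

open Polynomial
open Pool.Agent.Work.MP_77d073_nt Pool.Agent.Work.MP_77d073_nt.Root

private theorem eig_zero {n : ℕ} (y : Fin n → Fin n → ℝ) : Eig y 0 :=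
  ⟨0, fun a b => by simp⟩

private theorem eig_add_smul {n : ℕ} {y : Fin n → Fin n → ℝ} {β γ : Fin n → ℝ} (h1 : Eig y β)
    (h2 : Eig y γ) (T : ℤ) : Eig y (fun a => β a + (T : ℝ) * γ a) := by
  obtain ⟨B, hB⟩ := h1
  obtain ⟨C, hC⟩ := h2
  refine ⟨B + T • C, fun a b => ?_⟩
  have h3 : ∀ l, y a l * (((B + T • C) l b : ℤ) : ℝ) =
      y a l * (B l b : ℝ) + (T : ℝ) * (y a l * (C l b : ℝ)) := by
    intro l
    simp only [Matrix.add_apply, Matrix.smul_apply, smul_eq_mul]
    push_cast
    ring
  rw [Finset.sum_congr rfl fun l _ => h3 l, Finset.sum_add_distrib, ← Finset.mul_sum, hB, hC]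
  ring

theorem exists_sep {n : ℕ} (y : Fin n → Fin n → ℝ) :
    ∃ β : Fin n → ℝ, Eig y β ∧ ∀ i k, β i = β k → Rl y i k := by
  classical
  have key : ∀ S : Finset (Fin n × Fin n), ∃ β : Fin n → ℝ, Eig y β ∧
      ∀ p ∈ S, ¬ Rl y p.1 p.2 → β p.1 ≠ β p.2 := by
    intro S
    induction S using Finset.induction_on with
    | empty => exact ⟨0, eig_zero y, fun p hp => absurd hp (Finset.notMem_empty p)⟩
    | insert q S hq ih =>
      obtain ⟨β, hβ, hS⟩ := ih
      by_cases hR : Rl y q.1 q.2
      · refine ⟨β, hβ, fun p hp hn => ?_⟩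
        rcases Finset.mem_insert.1 hp with rfl | hp
        · exact absurd hR hn
        · exact hS p hp hn
      · obtain ⟨γ, hγ, hne⟩ : ∃ γ : Fin n → ℝ, Eig y γ ∧ γ q.1 ≠ γ q.2 := by
          by_contra hcon
          refine hR fun γ hγ => ?_
          by_contra h5
          exact hcon ⟨γ, hγ, h5⟩
        have hfin : ∀ p ∈ insert q S, ({T : ℤ | ¬ Rl y p.1 p.2 ∧
            β p.1 + (T : ℝ) * γ p.1 = β p.2 + (T : ℝ) * γ p.2}).Finite := by
          intro p hp
          by_cases h6 : γ p.1 = γ p.2
          · have hb : ¬ Rl y p.1 p.2 → β p.1 ≠ β p.2 := by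
              intro hn
              rcases Finset.mem_insert.1 hp with rfl | hp
              · exact absurd h6 hne
              · exact hS p hp hn
            refine Set.Finite.subset Set.finite_empty ?_
            rintro T ⟨hn, hT⟩
            rw [h6] at hT
            exact (hb hn (add_right_cancel hT)).elim
          · refine Set.Subsingleton.finite ?_
            rintro T ⟨-, hT⟩ T' ⟨-, hT'⟩
            have h7 : ((T : ℝ) - T') * (γ p.1 - γ p.2) = 0 := by linarith
            rcases mul_eq_zero.1 h7 with h8 | h8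
            · exact_mod_cast sub_eq_zero.1 h8
            · exact absurd (sub_eq_zero.1 h8) h6
        have hfin2 : (⋃ p ∈ insert q S, {T : ℤ | ¬ Rl y p.1 p.2 ∧
            β p.1 + (T : ℝ) * γ p.1 = β p.2 + (T : ℝ) * γ p.2}).Finite :=
          Set.Finite.biUnion (Finset.finite_toSet _) hfin
        obtain ⟨T, hT⟩ := hfin2.exists_notMem
        refine ⟨fun a => β a + (T : ℝ) * γ a, eig_add_smul hβ hγ T, fun p hp hn h9 => hT ?_⟩
        exact Set.mem_iUnion₂.2 ⟨p, hp, hn, h9⟩
  obtain ⟨β, hβ, h⟩ := key Finset.univ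
  refine ⟨β, hβ, fun i k hik => ?_⟩
  by_contra hn
  exact h (i, k) (Finset.mem_univ _) hn hik

end Pool.Agent.Work.MP_77d073_nt.Blk
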