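import Pool.Agent.Work.MP_77d073_nt.Blk.Defs

set_option autoImplicit false

/-!
# Blk/Wt (S-M): the weights

N = 4 n^2 + 2. wt_sum: on `C` the sum is `- card C * ∑ j ∉ C, N ^ j`, outside `card C * ∑ j ∉ C, N ^ j`.
wt_count: `0 = ∑ a, ν a * wt C a = ∑ j ∉ C, (m ν_j - ν_C) N ^ j` with `m = card C`, `ν_C = ∑ c ∈ C, ν c`. All
`|m ν_j - ν_C| ≤ n^2 < N`, so all are zero (private lemma: integers `d_j`, `|d_j| < N`,
`∑ j ∈ S, d_j N ^ j = 0` imply `d_j = 0`: at the smallest `j` with `d_j ≠ 0` the sum is `d_j N ^ j` modulo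
`N ^ (j + 1)`). So `m ν_j = ν_C`; take `j0 ∉ C`, `lam = ν j0`: `m ν_j = m lam`, so `ν_j = lam` for all `j ∉ C` and
`ν_C = m lam`; the total is `(n - m) lam + m lam = n lam ≤ n`, so `lam = 0` or `lam = 1`.
-/

namespace Pool.Agent.Work.MP_77d073_nt.Blk

open Pool.Agent.Work.MP_77d073_nt Pool.Agent.Work.MP_77d073_nt.Root

private theorem wt_split {n : ℕ} (C : Finset (Fin n)) (f : Fin n → ℤ) :
    ∑ a, f a * wt C a = ∑ j ∈ Cᶜ, ((C.card : ℤ) * f j - ∑ c ∈ C, f c) *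
      (4 * (n : ℤ) ^ 2 + 2) ^ (j : ℕ) := by
  rw [← Finset.sum_add_sum_compl C]
  have h1 : ∑ a ∈ C, f a * wt C a =
      -((∑ c ∈ C, f c) * ∑ j ∈ Cᶜ, (4 * (n : ℤ) ^ 2 + 2) ^ (j : ℕ)) := by
    rw [Finset.sum_mul, ← Finset.sum_neg_distrib]
    refine Finset.sum_congr rfl fun a ha => ?_
    unfold wt
    rw [if_pos ha]
    ring
  have h2 : ∑ a ∈ Cᶜ, f a * wt C a =
      ∑ j ∈ Cᶜ, ((C.card : ℤ) * f j) * (4 * (n : ℤ) ^ 2 + 2) ^ (j : ℕ) := by
    refine Finset.sum_congr rfl fun a ha => ?_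
    unfold wt
    rw [if_neg (Finset.mem_compl.1 ha)]
    ring
  rw [h1, h2, Finset.mul_sum, ← Finset.sum_neg_distrib, ← Finset.sum_add_distrib]
  refine Finset.sum_congr rfl fun j _ => ?_
  ring

private theorem wt_digits {n : ℕ} (N : ℤ) (hN : 0 < N) (S : Finset (Fin n)) (d : Fin n → ℤ)
    (hd : ∀ j ∈ S, |d j| < N) (h : ∑ j ∈ S, d j * N ^ (j : ℕ) = 0) : ∀ j ∈ S, d j = 0 := by
  by_contra hcon
  push Not at hcon
  obtain ⟨j1, hj1, hj1'⟩ := hcon
  set T := S.filter (fun j => d j ≠ 0) with hTdef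
  have hT : T.Nonempty := ⟨j1, Finset.mem_filter.2 ⟨hj1, hj1'⟩⟩
  set j0 := T.min' hT with hj0def
  have hj0 : j0 ∈ T := T.min'_mem hT
  obtain ⟨hj0S, hj0d⟩ := Finset.mem_filter.1 hj0
  have hsplit := Finset.add_sum_erase S (fun j => d j * N ^ (j : ℕ)) hj0S
  have hdvd : N ^ ((j0 : ℕ) + 1) ∣ ∑ j ∈ S.erase j0, d j * N ^ (j : ℕ) := by
    refine Finset.dvd_sum fun j hj => ?_
    by_cases hdj : d j = 0
    · rw [hdj, zero_mul]
      exact dvd_zero _
    · have hjT : j ∈ T := Finset.mem_filter.2 ⟨Finset.mem_of_mem_erase hj, hdj⟩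
      have h1 : j0 ≤ j := T.min'_le j hjT
      have h2 : j0 ≠ j := (Finset.ne_of_mem_erase hj).symm
      have h3 : j0 < j := lt_of_le_of_ne h1 h2
      exact Dvd.dvd.mul_left (pow_dvd_pow N (Nat.succ_le_of_lt h3)) _
  rw [h] at hsplit
  have h4 : N ^ ((j0 : ℕ) + 1) ∣ d j0 * N ^ (j0 : ℕ) := by
    have : d j0 * N ^ (j0 : ℕ) = -∑ j ∈ S.erase j0, d j * N ^ (j : ℕ) := by linarith
    rw [this]
    exact (dvd_neg).2 hdvd
  have h5 : N ∣ d j0 := by
    rw [pow_succ, mul_comm (N ^ (j0 : ℕ)) N] at h4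
    exact Int.dvd_of_mul_dvd_mul_right (pow_ne_zero _ hN.ne') h4
  have h6 := Int.le_of_dvd (abs_pos.2 hj0d) ((dvd_abs _ _).2 h5)
  exact absurd (hd j0 hj0S) (not_lt.2 h6)

theorem wt_sum {n : ℕ} (C : Finset (Fin n)) : ∑ a, wt C a = 0 := by
  have h := wt_split C (fun _ => 1)
  simp only [one_mul, mul_one, Finset.sum_const, nsmul_eq_mul, sub_self, zero_mul] at h
  simpa using h

theorem wx_pos {n : ℕ} (C : Finset (Fin n)) (r : ℝ) (a : Fin n) : 0 < wx C r a := Real.exp_pos _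

theorem wx_prod {n : ℕ} (C : Finset (Fin n)) (r : ℝ) : ∏ a, wx C r a = 1 := by
  unfold wx
  rw [← Real.exp_sum, ← Finset.mul_sum, ← Int.cast_sum, wt_sum, Int.cast_zero, mul_zero,
    Real.exp_zero]

theorem wx_same {n : ℕ} (C : Finset (Fin n)) (r : ℝ) {a b : Fin n} (ha : a ∈ C) (hb : b ∈ C) :
    wx C r a = wx C r b := by
  unfold wx wt
  rw [if_pos ha, if_pos hb]

theorem wx_add {n : ℕ} (C : Finset (Fin n)) (r s : ℝ) : wx C r * wx C s = wx C (r + s) := by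
  funext a
  rw [Pi.mul_apply]
  unfold wx
  rw [← Real.exp_add, ← add_mul]

theorem wt_count {n : ℕ} (C : Finset (Fin n)) (hC : C.Nonempty) (hC' : Cᶜ.Nonempty) (ν : Fin n → ℕ)
    (hν : ∑ a, ν a ≤ n) (h0 : ∑ a, (ν a : ℤ) * wt C a = 0) : ∑ a, ν a = 0 ∨ ∑ a, ν a = n := by
  rw [wt_split] at h0
  have hle : ∀ a, ν a ≤ n := fun a =>
    (Finset.single_le_sum (f := ν) (fun _ _ => Nat.zero_le _) (Finset.mem_univ a)).trans hν
  have hCn : C.card ≤ n := by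
    have := Finset.card_le_univ C
    rwa [Fintype.card_fin] at this
  have hνC : ∑ c ∈ C, ν c ≤ n :=
    (Finset.sum_le_sum_of_subset (Finset.subset_univ C)).trans hν
  have hz := wt_digits (4 * (n : ℤ) ^ 2 + 2) (by positivity) Cᶜ
    (fun j => (C.card : ℤ) * (ν j : ℤ) - ∑ c ∈ C, (ν c : ℤ)) (by
      intro j _
      have h1 : (C.card : ℤ) * (ν j : ℤ) ≤ (n : ℤ) * n := by
        exact_mod_cast Nat.mul_le_mul hCn (hle j)
      have h2 : (0 : ℤ) ≤ (C.card : ℤ) * (ν j : ℤ) := by positivity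
      have h3 : (∑ c ∈ C, (ν c : ℤ)) ≤ n := by exact_mod_cast hνC
      have h4 : (0 : ℤ) ≤ ∑ c ∈ C, (ν c : ℤ) := Finset.sum_nonneg fun _ _ => by positivity
      have h5 : (n : ℤ) ≤ (n : ℤ) ^ 2 := by exact_mod_cast Nat.le_self_pow (by norm_num) n
      rw [abs_lt]
      constructor
      · nlinarith
      · nlinarith) h0
  obtain ⟨j0, hj0⟩ := hC'
  have hm : 0 < C.card := Finset.card_pos.2 hC
  have key : ∀ j ∈ Cᶜ, C.card * ν j = ∑ c ∈ C, ν c := by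
    intro j hj
    have h1 := hz j hj
    have h2 : (C.card : ℤ) * (ν j : ℤ) = ∑ c ∈ C, (ν c : ℤ) := by linarith
    exact_mod_cast h2
  have hall : ∀ j ∈ Cᶜ, ν j = ν j0 := by
    intro j hj
    exact Nat.eq_of_mul_eq_mul_left hm ((key j hj).trans (key j0 hj0).symm)
  have htot : ∑ a, ν a = n * ν j0 := by
    rw [← Finset.sum_add_sum_compl C, ← key j0 hj0, Finset.sum_congr rfl hall, Finset.sum_const,
      smul_eq_mul, ← add_mul]
    congr 1
    have h1 := Finset.card_add_card_compl C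
    rw [Fintype.card_fin] at h1
    exact h1
  rw [htot] at hν ⊢
  have hn : 0 < n := lt_of_lt_of_le hm hCn
  rcases Nat.eq_zero_or_pos (ν j0) with h | h
  · left
    rw [h, mul_zero]
  · right
    have h1 : ν j0 ≤ 1 := by
      by_contra hcon
      push Not at hcon
      nlinarith
    have h2 : ν j0 = 1 := le_antisymm h1 h
    rw [h2, mul_one]

end Pool.Agent.Work.MP_77d073_nt.Blk
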